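import Pool.Agent.Lib.MRQ.Scale
import Pool.Agent.Lib.MRZ.Touch75

/-! TANK MR, count exponent `7/10` (helper14), part 3: at most `K √t / (log t)^{7/10}` integers of
`(t, t + c √t)` have at most `ε √t` balanced factorisations. -/

set_option autoImplicit false

namespace Pool.Agent.MRQ

open Finset Pool.Agent.MRZ

/-- one balanced factorisation with few pairs of divisors of the same scale bounds their number. -/
theorem near_count {K : ℕ} (hK : 2 ≤ K) {F : Finset ℕ} {u v : ℕ} (hu : 0 < u) (hv : 0 < v)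
    (hF : ∀ x ∈ F, x ∣ u * v ∧ x ≤ K * u ∧ u ≤ K * x) :
    (F.card : ℝ) ≤ 3 / 2 * ((TT K u : ℝ) + TT K v) := by
  classical
  set Q := (u.divisors ×ˢ v.divisors).filter (fun p =>
    Nat.log K p.1 ≤ Nat.log K p.2 + 1 ∧ Nat.log K p.2 ≤ Nat.log K p.1 + 1) with hQ
  have h1 : F.card ≤ Q.card := by
    apply Finset.card_le_card_of_injOn (fun x => (u / Nat.gcd x u, x / Nat.gcd x u))
    · intro x hx
      rw [mem_coe] at hx
      obtain ⟨hd, hx1, hx2⟩ := hF x hx
      have hx0 : 0 < x := Nat.pos_of_dvd_of_pos hd (Nat.mul_pos hu hv)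
      have hg : 0 < Nat.gcd x u := Nat.gcd_pos_of_pos_left _ hx0
      have e1 : Nat.gcd x u * (u / Nat.gcd x u) = u := Nat.mul_div_cancel' (Nat.gcd_dvd_right _ _)
      have e2 : Nat.gcd x u * (x / Nat.gcd x u) = x := Nat.mul_div_cancel' (Nat.gcd_dvd_left _ _)
      have n1 : u / Nat.gcd x u ≠ 0 := by
        intro h; rw [h, mul_zero] at e1; omega
      have n2 : x / Nat.gcd x u ≠ 0 := by
        intro h; rw [h, mul_zero] at e2; omega
      rw [mem_coe, hQ, mem_filter, mem_product, Nat.mem_divisors, Nat.mem_divisors]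
      refine ⟨⟨⟨Nat.div_dvd_of_dvd (Nat.gcd_dvd_right _ _), hu.ne'⟩, ?_, hv.ne'⟩, ?_, ?_⟩
      · -- the second part divides `v`
        have hc : Nat.Coprime (x / Nat.gcd x u) (u / Nat.gcd x u) :=
          Nat.coprime_div_gcd_div_gcd hg
        have h5 : x / Nat.gcd x u ∣ u / Nat.gcd x u * v := by
          apply Nat.dvd_of_mul_dvd_mul_left hg
          rw [e2, ← mul_assoc, e1]
          exact hd
        exact hc.dvd_of_dvd_mul_left h5
      · apply log_near hK n2
        apply Nat.le_of_mul_le_mul_left _ hg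
        rw [e1, mul_left_comm, e2]
        exact hx2
      · apply log_near hK n1
        apply Nat.le_of_mul_le_mul_left _ hg
        rw [e2, mul_left_comm, e1]
        exact hx1
    · intro x hx y hy hxy
      rw [mem_coe] at hx hy
      have hx0 : 0 < x := Nat.pos_of_dvd_of_pos (hF x hx).1 (Nat.mul_pos hu hv)
      have hy0 : 0 < y := Nat.pos_of_dvd_of_pos (hF y hy).1 (Nat.mul_pos hu hv)
      have hgx : 0 < Nat.gcd x u := Nat.gcd_pos_of_pos_left _ hx0
      have hgy : 0 < Nat.gcd y u := Nat.gcd_pos_of_pos_left _ hy0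
      have e1 : Nat.gcd x u * (u / Nat.gcd x u) = u := Nat.mul_div_cancel' (Nat.gcd_dvd_right _ _)
      have e2 : Nat.gcd x u * (x / Nat.gcd x u) = x := Nat.mul_div_cancel' (Nat.gcd_dvd_left _ _)
      have e1' : Nat.gcd y u * (u / Nat.gcd y u) = u := Nat.mul_div_cancel' (Nat.gcd_dvd_right _ _)
      have e2' : Nat.gcd y u * (y / Nat.gcd y u) = y := Nat.mul_div_cancel' (Nat.gcd_dvd_left _ _)
      simp only [Prod.mk.injEq] at hxy
      obtain ⟨q1, q2⟩ := hxy
      have n1 : 0 < u / Nat.gcd x u := by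
        rcases Nat.eq_zero_or_pos (u / Nat.gcd x u) with h | h
        · rw [h, mul_zero] at e1; omega
        · exact h
      have hgg : Nat.gcd x u = Nat.gcd y u := by
        apply Nat.eq_of_mul_eq_mul_right n1
        rw [e1, q1, e1']
      rw [← e2, ← e2', hgg]
      rw [hgg] at q2
      rw [q2]
  have h2 := near_le u.divisors v.divisors (fun n => Nat.log K n) (fun n => Nat.log K n)
    (fun _ => 1) (fun _ => 1) (fun _ _ => zero_le_one) (fun _ _ => zero_le_one)
  simp only [mul_one, Finset.sum_const, nsmul_eq_mul] at h2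
  have h3 : (F.card : ℝ) ≤ (Q.card : ℝ) := by exact_mod_cast h1
  refine h3.trans (h2.trans (le_of_eq ?_))
  unfold TT
  ring

theorem touch_coreT {K : ℕ} (hK : 2 ≤ K) {c a1 a2 : ℝ} (hc : 0 < c) (h1 : 0 < a1) (h2 : 0 < a2)
    (hKa : a2 ≤ K * a1) {t : ℝ} (ht : 1 ≤ t)
    (hcs : c ≤ √t) (E : Finset ℕ) (hE : ∀ N ∈ E, t < (N : ℝ) ∧ (N : ℝ) < t + c * √t)
    {Z : ℝ} (hZpos : 0 ≤ Z) :
    ((∑ N ∈ E, (N.divisors.filter
        (fun u : ℕ => a1 * √t ≤ (u : ℝ) ∧ (u : ℝ) ≤ a2 * √t)).card : ℕ) : ℝ) ≤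
      (E.card : ℝ) * (3 * Z) +
      (c / a1 + 1) * (((Icc 1 ⌊a2 * √t⌋₊).filter
        (fun u => Z < (TT K u : ℝ))).card : ℝ) +
      (c / (1 / a2) + 1) * (((Icc 1 ⌊2 / a1 * √t⌋₊).filter
        (fun u => Z < (TT K u : ℝ))).card : ℝ) := by
  have hst : 0 < √t := Real.sqrt_pos.2 (by linarith)
  have hsq : √t * √t = t := Real.mul_self_sqrt (by linarith)
  have hNpos : ∀ N ∈ E, 0 < N := by
    intro N hN
    have h7 := (hE N hN).1
    have h8 : (0 : ℝ) < N := by linarith
    exact_mod_cast h8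
  set F : ℕ → Finset ℕ := fun N => N.divisors.filter
    (fun u : ℕ => a1 * √t ≤ (u : ℝ) ∧ (u : ℝ) ≤ a2 * √t) with hF
  set f : ℕ → ℝ := fun n => if Z < (TT K n : ℝ) then 1 else 0 with hf
  have hf0 : ∀ n, 0 ≤ f n := by
    intro n
    simp only [hf]
    split_ifs <;> norm_num
  -- pointwise bound
  have hpt : ∀ N ∈ E, ((F N).card : ℝ) ≤ 3 * Z + (∑ u ∈ F N, f u) + (∑ u ∈ F N, f (N / u)) := by
    intro N hN
    have hN0 := hNpos N hN
    -- the good divisors
    have hgood : (((F N).filter (fun u => (TT K u : ℝ) ≤ Z ∧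
        (TT K (N / u) : ℝ) ≤ Z)).card : ℝ) ≤ 3 * Z := by
      by_cases hne : ((F N).filter (fun u => (TT K u : ℝ) ≤ Z ∧
        (TT K (N / u) : ℝ) ≤ Z)).Nonempty
      · obtain ⟨u, hu⟩ := hne
        rw [Finset.mem_filter] at hu
        obtain ⟨hu1, hu2, hu3⟩ := hu
        rw [hF] at hu1
        simp only [Finset.mem_filter, Nat.mem_divisors] at hu1
        have hu0 : 0 < u := Nat.pos_of_dvd_of_pos hu1.1.1 hN0
        have huv : u * (N / u) = N := Nat.mul_div_cancel' hu1.1.1
        have hv0 : 0 < N / u := by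
          rcases Nat.eq_zero_or_pos (N / u) with h | h
          · rw [h, mul_zero] at huv; omega
          · exact h
        have h7 := near_count hK (F := (F N).filter (fun u => (TT K u : ℝ) ≤ Z ∧
            (TT K (N / u) : ℝ) ≤ Z)) hu0 hv0 (by
          intro x hx
          rw [Finset.mem_filter, hF] at hx
          simp only [Finset.mem_filter, Nat.mem_divisors] at hx
          obtain ⟨⟨⟨hxd, _⟩, hx1, hx2⟩, _⟩ := hx
          rw [huv]
          refine ⟨hxd, ?_, ?_⟩
          · have : (x : ℝ) ≤ K * u := by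
              calc (x : ℝ) ≤ a2 * √t := hx2
                _ ≤ (K * a1) * √t := mul_le_mul_of_nonneg_right hKa hst.le
                _ = K * (a1 * √t) := by ring
                _ ≤ K * u := mul_le_mul_of_nonneg_left hu1.2.1 (Nat.cast_nonneg K)
            exact_mod_cast this
          · have : (u : ℝ) ≤ K * x := by
              calc (u : ℝ) ≤ a2 * √t := hu1.2.2
                _ ≤ (K * a1) * √t := mul_le_mul_of_nonneg_right hKa hst.le
                _ = K * (a1 * √t) := by ring
                _ ≤ K * x := mul_le_mul_of_nonneg_left hx1 (Nat.cast_nonneg K)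
            exact_mod_cast this)
        linarith
      · rw [Finset.not_nonempty_iff_eq_empty] at hne
        rw [hne]
        simp only [Finset.card_empty, Nat.cast_zero]
        positivity
    have hbad : (((F N).filter (fun u => ¬ ((TT K u : ℝ) ≤ Z ∧
        (TT K (N / u) : ℝ) ≤ Z))).card : ℝ) ≤
        (∑ u ∈ F N, f u) + (∑ u ∈ F N, f (N / u)) := by
      rw [Finset.card_eq_sum_ones, Nat.cast_sum, ← Finset.sum_add_distrib]
      refine le_trans ?_ (Finset.sum_le_sum_of_subset_of_nonneg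
        (Finset.filter_subset (fun u => ¬ ((TT K u : ℝ) ≤ Z ∧
        (TT K (N / u) : ℝ) ≤ Z)) (F N)) (fun i _ _ => add_nonneg (hf0 _) (hf0 _)))
      apply Finset.sum_le_sum
      intro u hu
      rw [Finset.mem_filter] at hu
      have hu2 := hu.2
      rw [not_and_or, not_le, not_le] at hu2
      rw [Nat.cast_one]
      rcases hu2 with h | h
      · have e1 : f u = 1 := by simp only [hf, if_pos h]
        have e2 := hf0 (N / u)
        linarith
      · have e1 : f (N / u) = 1 := by simp only [hf, if_pos h]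
        have e2 := hf0 u
        linarith
    have hsplit := Finset.card_filter_add_card_filter_not (s := F N)
      (fun u => (TT K u : ℝ) ≤ Z ∧ (TT K (N / u) : ℝ) ≤ Z)
    have hsplit' : ((F N).card : ℝ) = (((F N).filter (fun u => (TT K u : ℝ) ≤ Z ∧
        (TT K (N / u) : ℝ) ≤ Z)).card : ℝ) +
        (((F N).filter (fun u => ¬ ((TT K u : ℝ) ≤ Z ∧
        (TT K (N / u) : ℝ) ≤ Z))).card : ℝ) := by
      exact_mod_cast hsplit.symm
    rw [hsplit']
    linarith
  -- the complementary divisors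
  have hcomp : (∑ N ∈ E, ∑ u ∈ F N, f (N / u)) ≤
      ∑ N ∈ E, ∑ u ∈ N.divisors.filter
        (fun u : ℕ => (1 / a2) * √t ≤ (u : ℝ) ∧ (u : ℝ) ≤ (2 / a1) * √t), f u := by
    apply Finset.sum_le_sum
    intro N hN
    have hN0 := hNpos N hN
    have hinj : Set.InjOn (fun u => N / u) (F N : Set ℕ) := by
      intro x hx y hy hxy
      simp only [hF, Finset.coe_filter, Nat.mem_divisors, Set.mem_ofPred_eq] at hx hy
      have e1 := Nat.div_mul_cancel hx.1.1
      have e2 := Nat.div_mul_cancel hy.1.1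
      simp only at hxy
      rw [hxy] at e1
      have e3 : 0 < N / y := by
        rcases Nat.eq_zero_or_pos (N / y) with h | h
        · rw [h] at e2; omega
        · exact h
      exact Nat.eq_of_mul_eq_mul_left e3 (e1.trans e2.symm)
    rw [← Finset.sum_image (f := f) hinj]
    apply Finset.sum_le_sum_of_subset_of_nonneg
    · intro v hv
      rw [Finset.mem_image] at hv
      obtain ⟨u, hu, rfl⟩ := hv
      simp only [hF, Finset.mem_filter, Nat.mem_divisors] at hu
      obtain ⟨⟨hud, _⟩, hu1, hu2⟩ := hu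
      have e1 : ((N / u : ℕ) : ℝ) * u = N := by exact_mod_cast Nat.div_mul_cancel hud
      have hu0 : (0 : ℝ) < u := lt_of_lt_of_le (by positivity) hu1
      have hv0 : (0 : ℝ) ≤ ((N / u : ℕ) : ℝ) := Nat.cast_nonneg _
      obtain ⟨hN1, hN2⟩ := hE N hN
      rw [Finset.mem_filter, Nat.mem_divisors]
      refine ⟨⟨Nat.div_dvd_of_dvd hud, by omega⟩, ?_, ?_⟩
      · rw [div_mul_eq_mul_div, one_mul, div_le_iff₀ h2]
        have : √t * √t ≤ ((N / u : ℕ) : ℝ) * a2 * √t := by
          rw [hsq]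
          calc t ≤ ((N / u : ℕ) : ℝ) * u := by rw [e1]; exact hN1.le
            _ ≤ ((N / u : ℕ) : ℝ) * (a2 * √t) := mul_le_mul_of_nonneg_left hu2 hv0
            _ = _ := by ring
        exact le_of_mul_le_mul_right this hst
      · rw [div_mul_eq_mul_div, le_div_iff₀ h1]
        have : ((N / u : ℕ) : ℝ) * a1 * √t ≤ 2 * √t * √t := by
          calc ((N / u : ℕ) : ℝ) * a1 * √t = ((N / u : ℕ) : ℝ) * (a1 * √t) := by ring
            _ ≤ ((N / u : ℕ) : ℝ) * u := mul_le_mul_of_nonneg_left hu1 hv0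
            _ = N := e1
            _ ≤ t + c * √t := hN2.le
            _ ≤ √t * √t + √t * √t := by nlinarith
            _ = 2 * √t * √t := by ring
        exact le_of_mul_le_mul_right this hst
    · intro i _ _
      exact hf0 i
  have hA := sum_f_E (a2 := a2) hc h1 ht E hE f hf0
  have hB := sum_f_E (a2 := 2 / a1) hc (by positivity : (0 : ℝ) < 1 / a2) ht E hE f hf0
  have hcnt : ∀ U : ℕ, (∑ u ∈ Icc 1 U, f u) =
      (((Icc 1 U).filter (fun u => Z < (TT K u : ℝ))).card : ℝ) := by
    intro U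
    simp only [hf]
    rw [← Finset.sum_filter, Finset.sum_const, nsmul_eq_mul, mul_one]
  rw [hcnt] at hA hB
  have hsum : (∑ N ∈ E, ((F N).card : ℝ)) ≤ (E.card : ℝ) * (3 * Z) +
      (∑ N ∈ E, ∑ u ∈ F N, f u) + (∑ N ∈ E, ∑ u ∈ F N, f (N / u)) := by
    refine (Finset.sum_le_sum hpt).trans (le_of_eq ?_)
    rw [Finset.sum_add_distrib, Finset.sum_add_distrib, Finset.sum_const, nsmul_eq_mul]
  have hgoal : ((∑ N ∈ E, (F N).card : ℕ) : ℝ) = ∑ N ∈ E, ((F N).card : ℝ) := by
    push_cast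
    rfl
  rw [hgoal]
  linarith [hcomp.trans hB]

/-- For typical integers `T(u) ≤ (log t)^θ`, `θ > (1 + e) log 2`. -/
theorem count_big_TT (H : Typ) {K : ℕ} (hK : 2 ≤ K) {a e δ θ : ℝ} (ha : 0 < a) (he : 0 < e)
    (hδ : 0 < δ) (hθ : (1 + e) * Real.log 2 < θ) :
    ∃ t1 : ℝ, ∀ t : ℝ, t1 ≤ t →
      (((Icc 1 ⌊a * √t⌋₊).filter (fun u => (Real.log t) ^ θ < (TT K u : ℝ))).card : ℝ) ≤
        δ * √t := by
  obtain ⟨x0, hx0⟩ := H e (δ / 2 / a) he (by positivity)
  set κ : ℝ := θ - (1 + e) * Real.log 2 with hκ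
  have hκ0 : 0 < κ := by rw [hκ]; linarith
  -- the analytic limit
  have hlim : Filter.Tendsto (fun y : ℝ => (1 + Real.log (3 * y)) * y ^ (-κ)) Filter.atTop
      (nhds 0) := by
    have l1 : Filter.Tendsto (fun y : ℝ => y ^ (-κ)) Filter.atTop (nhds 0) :=
      tendsto_rpow_neg_atTop hκ0
    have l2 : Filter.Tendsto (fun y : ℝ => Real.log y / y ^ κ) Filter.atTop (nhds 0) :=
      (isLittleO_log_rpow_atTop hκ0).tendsto_div_nhds_zero
    have l3 : Filter.Tendsto (fun y : ℝ => (1 + Real.log 3) * y ^ (-κ) + Real.log y / y ^ κ)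
        Filter.atTop (nhds ((1 + Real.log 3) * 0 + 0)) := (l1.const_mul _).add l2
    rw [mul_zero, add_zero] at l3
    refine l3.congr' ?_
    filter_upwards [Filter.eventually_gt_atTop 0] with y hy
    rw [Real.log_mul (by norm_num) hy.ne', Real.rpow_neg hy.le]
    field_simp
    ring
  have hlim2 := hlim.comp Real.tendsto_log_atTop
  have hev := hlim2.eventually (Iic_mem_nhds
    (by positivity : (0 : ℝ) < δ / 2 / (720 * (K : ℝ) ^ 2 * a + 1)))
  obtain ⟨t3, ht3⟩ := Filter.eventually_atTop.1 hev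
  refine ⟨max (max (max 1 (a ^ 2)) (((max x0 (Real.exp 1)) / a) ^ 2)) t3, fun t ht => ?_⟩
  have htt3 : t3 ≤ t := (le_max_right _ _).trans ht
  have ht' := (le_max_left _ _).trans ht
  have ht1 : 1 ≤ t := ((le_max_left _ _).trans (le_max_left _ _)).trans ht'
  have ht2 : a ^ 2 ≤ t := ((le_max_right _ _).trans (le_max_left _ _)).trans ht'
  have ht4 : ((max x0 (Real.exp 1)) / a) ^ 2 ≤ t := (le_max_right _ _).trans ht'
  have hst : 0 < √t := Real.sqrt_pos.2 (by linarith)
  have hsq : √t * √t = t := Real.mul_self_sqrt (by linarith)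
  have hexp : 0 < Real.exp 1 := Real.exp_pos 1
  have hm : 0 < max x0 (Real.exp 1) := lt_of_lt_of_le hexp (le_max_right _ _)
  have has : a ≤ √t := by
    rw [← Real.sqrt_sq ha.le]
    exact Real.sqrt_le_sqrt ht2
  have hbig : max x0 (Real.exp 1) ≤ a * √t := by
    have h0 : 0 ≤ max x0 (Real.exp 1) / a := by positivity
    have h1 : max x0 (Real.exp 1) / a ≤ √t := by
      rw [← Real.sqrt_sq h0]
      exact Real.sqrt_le_sqrt ht4
    rw [div_le_iff₀ ha] at h1
    linarith
  have hx : x0 ≤ a * √t := (le_max_left _ _).trans hbig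
  have hex : Real.exp 1 ≤ a * √t := (le_max_right _ _).trans hbig
  have hxt : a * √t ≤ t := by nlinarith
  have hapos : 0 < a * √t := by positivity
  have hlog1 : 1 ≤ Real.log (a * √t) := (Real.le_log_iff_exp_le hapos).2 hex
  have hlog2 : Real.log (a * √t) ≤ Real.log t := Real.log_le_log hapos hxt
  have hlt : 0 < Real.log t := by linarith
  have hlt1 : 1 ≤ Real.log t := by linarith
  set U : ℕ := ⌊a * √t⌋₊ with hU
  have hUle : (U : ℝ) ≤ a * √t := Nat.floor_le hapos.le
  have hatyp := hx0 (a * √t) hx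
  have hatyp' : (((Icc 1 U).filter (fun n => (1 + e) * Real.log (Real.log (a * √t)) <
      (ArithmeticFunction.cardFactors n : ℝ))).card : ℝ) ≤ δ / 2 * √t := by
    refine hatyp.trans (le_of_eq ?_)
    field_simp
  -- the typical integers
  set B := (Icc 1 U).filter (fun u => (ArithmeticFunction.cardFactors u : ℝ) ≤
    (1 + e) * Real.log (Real.log (a * √t)) ∧ (Real.log t) ^ θ < (TT K u : ℝ)) with hB
  have hBle : (B.card : ℝ) ≤ δ / 2 * √t := by
    have h1 : ∀ u ∈ B, (Real.log t) ^ κ ≤ hw u * (TT K u : ℝ) := by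
      intro u hu
      rw [hB, mem_filter] at hu
      have h2 : (Real.log t) ^ (-((1 + e) * Real.log 2)) ≤ hw u := by
        have e1 : hw u = (2 : ℝ) ^ (-(ArithmeticFunction.cardFactors u : ℝ)) := by
          unfold hw
          rw [Real.rpow_neg (by norm_num), Real.rpow_natCast, one_div, inv_pow]
        rw [e1]
        have e2 : (2 : ℝ) ^ (-((1 + e) * Real.log (Real.log t))) ≤
            (2 : ℝ) ^ (-(ArithmeticFunction.cardFactors u : ℝ)) := by
          apply Real.rpow_le_rpow_of_exponent_le (by norm_num)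
          apply neg_le_neg
          refine hu.2.1.trans ?_
          apply mul_le_mul_of_nonneg_left _ (by linarith)
          exact Real.log_le_log (by linarith) hlog2
        refine le_trans (le_of_eq ?_) e2
        rw [Real.rpow_def_of_pos hlt, Real.rpow_def_of_pos (by norm_num : (0:ℝ) < 2)]
        congr 1
        ring
      calc (Real.log t) ^ κ = (Real.log t) ^ (-((1 + e) * Real.log 2)) * (Real.log t) ^ θ := by
            rw [← Real.rpow_add hlt, hκ]
            congr 1
            ring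
        _ ≤ hw u * (TT K u : ℝ) := mul_le_mul h2 hu.2.2.le (Real.rpow_nonneg hlt.le _) (hw_pos u).le
    have h2 : (B.card : ℝ) * (Real.log t) ^ κ ≤ ∑ u ∈ Icc 1 U, hw u * (TT K u : ℝ) := by
      rw [← nsmul_eq_mul, ← Finset.sum_const]
      refine (Finset.sum_le_sum h1).trans ?_
      exact Finset.sum_le_sum_of_subset_of_nonneg (Finset.filter_subset _ _)
        fun i _ _ => mul_nonneg (hw_pos i).le (Nat.cast_nonneg _)
    have h3 := sum_hw_TT_le hK U
    -- the number of scales
    have h4 : ((Nat.log K U + 1 : ℕ) : ℝ) ≤ 3 * Real.log t := by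
      have hU1 : 1 ≤ U := by
        rw [hU, Nat.one_le_floor_iff]
        have := Real.add_one_le_exp (1 : ℝ)
        linarith
      have e1 : K ^ Nat.log K U ≤ U := Nat.pow_log_le_self K (by omega)
      have e2 : ((K : ℝ)) ^ Nat.log K U ≤ t := by
        have : ((K ^ Nat.log K U : ℕ) : ℝ) ≤ (U : ℝ) := by exact_mod_cast e1
        push_cast at this
        linarith
      have hK2 : (2 : ℝ) ≤ K := by exact_mod_cast hK
      have e3 : (2 : ℝ) ^ Nat.log K U ≤ t :=
        (pow_le_pow_left₀ (by norm_num) hK2 _).trans e2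
      have e4 : (Nat.log K U : ℝ) * Real.log 2 ≤ Real.log t := by
        have := Real.log_le_log (by positivity) e3
        rwa [Real.log_pow] at this
      have e5 := Real.log_two_gt_d9
      push_cast
      nlinarith [Nat.cast_nonneg (α := ℝ) (Nat.log K U)]
    have h5 : Real.log ((Nat.log K U + 1 : ℕ) : ℝ) ≤ Real.log (3 * Real.log t) :=
      Real.log_le_log (by positivity) h4
    have h6 := ht3 t htt3
    simp only [Function.comp_apply] at h6
    have hq : (0 : ℝ) < 720 * (K : ℝ) ^ 2 * a + 1 := by positivity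
    rw [le_div_iff₀ hq] at h6
    have hκp : 0 < (Real.log t) ^ κ := Real.rpow_pos_of_pos hlt _
    have hlog3 : 0 ≤ 1 + Real.log (3 * Real.log t) := by
      have : 0 ≤ Real.log (3 * Real.log t) := Real.log_nonneg (by linarith)
      linarith
    have h7 : (B.card : ℝ) * (Real.log t) ^ κ ≤
        720 * (K : ℝ) ^ 2 * (1 + Real.log (3 * Real.log t)) * (a * √t) := by
      refine (h2.trans h3).trans ?_
      apply mul_le_mul _ hUle (Nat.cast_nonneg U) (by positivity)
      apply mul_le_mul_of_nonneg_left _ (by positivity)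
      linarith
    have h8 : (Real.log t) ^ (-κ) * (Real.log t) ^ κ = 1 := by
      rw [← Real.rpow_add hlt]
      simp
    have hnn : 0 ≤ (Real.log t) ^ (-κ) := Real.rpow_nonneg hlt.le _
    calc (B.card : ℝ) = ((B.card : ℝ) * (Real.log t) ^ κ) * (Real.log t) ^ (-κ) := by
          rw [mul_assoc, mul_comm ((Real.log t) ^ κ), h8, mul_one]
      _ ≤ (720 * (K : ℝ) ^ 2 * (1 + Real.log (3 * Real.log t)) * (a * √t)) *
          (Real.log t) ^ (-κ) := mul_le_mul_of_nonneg_right h7 hnn
      _ = ((1 + Real.log (3 * Real.log t)) * (Real.log t) ^ (-κ)) *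
          (720 * (K : ℝ) ^ 2 * a) * √t := by ring
      _ ≤ δ / 2 * √t := by
          apply mul_le_mul_of_nonneg_right _ hst.le
          have h9 : 0 ≤ (1 + Real.log (3 * Real.log t)) * (Real.log t) ^ (-κ) :=
            mul_nonneg hlog3 hnn
          nlinarith
  -- together
  have hsub : (Icc 1 U).filter (fun u => (Real.log t) ^ θ < (TT K u : ℝ)) ⊆
      (Icc 1 U).filter (fun n => (1 + e) * Real.log (Real.log (a * √t)) <
      (ArithmeticFunction.cardFactors n : ℝ)) ∪ B := by
    intro u hu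
    rw [mem_filter] at hu
    rw [mem_union, mem_filter, hB, mem_filter]
    by_cases hcase : (1 + e) * Real.log (Real.log (a * √t)) <
      (ArithmeticFunction.cardFactors u : ℝ)
    · exact Or.inl ⟨hu.1, hcase⟩
    · exact Or.inr ⟨hu.1, not_lt.1 hcase, hu.2⟩
  have hcard : (((Icc 1 U).filter (fun u => (Real.log t) ^ θ < (TT K u : ℝ))).card : ℝ) ≤
      (((Icc 1 U).filter (fun n => (1 + e) * Real.log (Real.log (a * √t)) <
      (ArithmeticFunction.cardFactors n : ℝ))).card : ℝ) + (B.card : ℝ) := by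
    exact_mod_cast (Finset.card_le_card hsub).trans (Finset.card_union_le _ _)
  linarith

/-- The balanced factorisations `N = u v`, `a1 √t ≤ u ≤ a2 √t`, of the members of a set of at most
`K √t / (log t)^{7/10}` integers of `(t, t + c √t)` number at most `ε √t`. -/
theorem touch_pairs70K (H : Typ) {c a1 a2 ε K : ℝ} (hc : 0 < c) (h1 : 0 < a1) (h2 : 0 < a2)
    (hε : 0 < ε) (hK : 0 < K) :
    ∃ t0 : ℝ, ∀ t : ℝ, t0 ≤ t → ∀ E : Finset ℕ,
      (∀ N ∈ E, t < (N : ℝ) ∧ (N : ℝ) < t + c * √t) →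
      (E.card : ℝ) ≤ K * √t / (Real.log t) ^ (7 / 10 : ℝ) →
      ((∑ N ∈ E, (N.divisors.filter
        (fun u : ℕ => a1 * √t ≤ (u : ℝ) ∧ (u : ℝ) ≤ a2 * √t)).card : ℕ) : ℝ) ≤ ε * √t := by
  set k : ℕ := max 2 ⌈a2 / a1⌉₊ with hk
  have hk2 : 2 ≤ k := le_max_left _ _
  have hka : a2 ≤ k * a1 := by
    have e1 : a2 / a1 ≤ (⌈a2 / a1⌉₊ : ℝ) := Nat.le_ceil _
    have e2 : ((⌈a2 / a1⌉₊ : ℕ) : ℝ) ≤ (k : ℝ) := by exact_mod_cast le_max_right _ _
    have e3 := e1.trans e2
    rwa [div_le_iff₀ h1] at e3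
  set θ : ℝ := 697 / 1000 with hθ
  have hθ1 : (1 + 1 / 500) * Real.log 2 < θ := by
    have := Real.log_two_lt_d9
    rw [hθ]
    linarith
  have hκ : (0 : ℝ) < 7 / 10 - θ := by
    rw [hθ]
    norm_num
  obtain ⟨t1, ht1⟩ := count_big_TT H hk2 h2 (by norm_num : (0 : ℝ) < 1 / 500)
    (by positivity : 0 < ε / (3 * (c / a1 + 1))) hθ1
  obtain ⟨t2, ht2⟩ := count_big_TT H hk2 (by positivity : 0 < 2 / a1)
    (by norm_num : (0 : ℝ) < 1 / 500) (by positivity : 0 < ε / (3 * (c / (1 / a2) + 1))) hθ1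
  have htend : Filter.Tendsto (fun t : ℝ => (Real.log t) ^ (-(7 / 10 - θ))) Filter.atTop
      (nhds 0) := (tendsto_rpow_neg_atTop hκ).comp Real.tendsto_log_atTop
  have hev := htend.eventually (Iic_mem_nhds (by positivity : (0 : ℝ) < ε / (9 * K)))
  obtain ⟨t3, ht3⟩ := Filter.eventually_atTop.1 hev
  refine ⟨max (max 3 (c ^ 2)) (max (max t1 t2) t3), ?_⟩
  intro t ht E hE hcard
  have h3 : 3 ≤ t := ((le_max_left _ _).trans (le_max_left _ _)).trans ht
  have h4 : c ^ 2 ≤ t := ((le_max_right _ _).trans (le_max_left _ _)).trans ht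
  have h5 : t1 ≤ t := ((le_max_left _ _).trans ((le_max_left _ _).trans (le_max_right _ _))).trans ht
  have h6 : t2 ≤ t := ((le_max_right _ _).trans ((le_max_left _ _).trans (le_max_right _ _))).trans ht
  have h7 : t3 ≤ t := ((le_max_right _ _).trans (le_max_right _ _)).trans ht
  have hst : 0 < √t := Real.sqrt_pos.2 (by linarith)
  have hcs : c ≤ √t := by
    rw [← Real.sqrt_sq hc.le]
    exact Real.sqrt_le_sqrt h4
  have hL : 0 < Real.log t := Real.log_pos (by linarith)
  have hcore := touch_coreT hk2 (a1 := a1) (a2 := a2) hc h1 h2 hka (by linarith : (1 : ℝ) ≤ t)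
    hcs E hE (Z := (Real.log t) ^ θ) (Real.rpow_nonneg hL.le _)
  refine hcore.trans ?_
  have hA := ht1 t h5
  have hB := ht2 t h6
  have hC := ht3 t h7
  have hfirst : (E.card : ℝ) * (3 * (Real.log t) ^ θ) ≤ ε / 3 * √t := by
    calc (E.card : ℝ) * (3 * (Real.log t) ^ θ)
        ≤ K * √t / (Real.log t) ^ (7 / 10 : ℝ) * (3 * (Real.log t) ^ θ) :=
          mul_le_mul_of_nonneg_right hcard (mul_nonneg (by norm_num) (Real.rpow_nonneg hL.le _))
      _ = (Real.log t) ^ (-(7 / 10 - θ)) * (3 * (K * √t)) := by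
          have : (Real.log t) ^ (-(7 / 10 - θ)) =
              (Real.log t) ^ θ / (Real.log t) ^ (7 / 10 : ℝ) := by
            rw [← Real.rpow_sub hL]
            congr 1
            ring
          rw [this]
          ring
      _ ≤ ε / (9 * K) * (3 * (K * √t)) := mul_le_mul_of_nonneg_right hC (by positivity)
      _ = ε / 3 * √t := by field_simp; norm_num
  have hA' : (c / a1 + 1) * (((Icc 1 ⌊a2 * √t⌋₊).filter
        (fun u => (Real.log t) ^ θ < (TT k u : ℝ))).card : ℝ) ≤ ε / 3 * √t := by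
    refine (mul_le_mul_of_nonneg_left hA (by positivity)).trans (le_of_eq ?_)
    field_simp
  have hB' : (c / (1 / a2) + 1) * (((Icc 1 ⌊2 / a1 * √t⌋₊).filter
        (fun u => (Real.log t) ^ θ < (TT k u : ℝ))).card : ℝ) ≤ ε / 3 * √t := by
    refine (mul_le_mul_of_nonneg_left hB (by positivity)).trans (le_of_eq ?_)
    have : c / (1 / a2) + 1 ≠ 0 := by positivity
    generalize c / (1 / a2) + 1 = q at this
    field_simp
  linarith

end Pool.Agent.MRQ
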