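import Pool.Agent.Lib.MRQ.FinalQ
import Pool.Agent.Lib.MRZ.Touch75
import Pool.Agent.Lib.MRZ.Typ
import Pool.Agent.Lib.MRZ.E1E
import Pool.Agent.Lib.MRZ.FinalR
import Pool.Agent.Lib.MRZ.LinkR
import Pool.Agent.Lib.MRZ.SMZF
import Pool.Agent.Lib.MRZ.NRZ
import Pool.Agent.Lib.PO69.Assemble

/-! TANK MR, quantitative lift (helper14): the assembly. -/

set_option autoImplicit false

namespace Pool.Agent.MRQ

open Finset Pool.Agent.MRL Pool.Agent.MRZ

theorem touchP_75 : TouchP (fun t => (Real.log t) ^ (7 / 5 : ℝ)) := by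
  intro c a1 a2 ε hc h1 h2 hε
  exact touch_pairs75 typ hc h1 h2 hε

theorem finalR_all : FinalR :=
  finalR (linkR chainE secondMomentZ Pool.Agent.PO69.equi Pool.Agent.PO69.sieve_density
    (Pool.Agent.PO69.prime_set mertensLower)) (noRunsZ Pool.Agent.PO69.mrd_all)

/-- For every modulus `P` and every `c > 0`, every interval `(t, t + c √t)` with `t` large contains
at least `√t / (log t)^{7/5}` integers coprime to `P` with `Ω` even, and as many with `Ω` odd. -/
theorem finalQ_all : FinalQ (fun t => (Real.log t) ^ (7 / 5 : ℝ)) := finalQ finalR_all touchP_75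

end Pool.Agent.MRQ
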