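import Pool.Agent.Lib.MRZ.StatE
import Pool.Agent.Lib.MRZ.Touch

/-! TANK MR, quantitative lift (helper14): from the number of balanced factorisations (`FinalR`)
to the number of integers of each parity. -/

set_option autoImplicit false

namespace Pool.Agent.MRQ

open Finset Pool.Agent.MRL Pool.Agent.MRZ

/-- At most `√t / ψ t` integers of `(t, t + c √t)` have at most `ε √t` factorisations `u v` with
`u` of size `√t`. -/
def TouchP (ψ : ℝ → ℝ) : Prop := ∀ c a1 a2 ε : ℝ, 0 < c → 0 < a1 → 0 < a2 → 0 < ε →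
  ∃ t0 : ℝ, ∀ t : ℝ, t0 ≤ t → ∀ E : Finset ℕ,
    (∀ N ∈ E, t < (N : ℝ) ∧ (N : ℝ) < t + c * √t) → (E.card : ℝ) ≤ √t / ψ t →
    ((∑ N ∈ E, (N.divisors.filter
      (fun u : ℕ => a1 * √t ≤ (u : ℝ) ∧ (u : ℝ) ≤ a2 * √t)).card : ℕ) : ℝ) ≤ ε * √t

theorem touchP_three : TouchP (fun t => (Real.log t) ^ 3) := by
  intro c a1 a2 ε hc h1 h2 hε
  exact touch_pairs hc h1 h2 hε

/-- For every modulus `P` and every `c > 0`, every interval `(t, t + c √t)` with `t` large contains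
at least `√t / ψ t` integers coprime to `P` with `Ω` even, and as many with `Ω` odd. -/
def FinalQ (ψ : ℝ → ℝ) : Prop := ∀ (P : ℕ) (c : ℝ), 1 ≤ P → 0 < c → ∃ t0 : ℝ, ∀ t : ℝ, t0 ≤ t →
  √t / ψ t ≤ (((Finset.range (⌊t + c * √t⌋₊ + 1)).filter (fun n : ℕ => t < (n : ℝ) ∧
    (n : ℝ) < t + c * √t ∧ n.Coprime P ∧ Even (ArithmeticFunction.cardFactors n))).card : ℝ) ∧
  √t / ψ t ≤ (((Finset.range (⌊t + c * √t⌋₊ + 1)).filter (fun n : ℕ => t < (n : ℝ) ∧
    (n : ℝ) < t + c * √t ∧ n.Coprime P ∧ Odd (ArithmeticFunction.cardFactors n))).card : ℝ)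

theorem finalQ {ψ : ℝ → ℝ} (hR : FinalR) (hT : TouchP ψ) : FinalQ ψ := by
  intro P c hP hc
  obtain ⟨a1, a2, η, h1, h2, hη, t0, H0⟩ := hR P c hP hc
  obtain ⟨t1, H1⟩ := hT c a1 a2 (η / 2) hc h1 h2 (by positivity)
  refine ⟨max (max t0 t1) 1, fun t ht => ?_⟩
  have ht0 : t0 ≤ t := ((le_max_left _ _).trans (le_max_left _ _)).trans ht
  have ht1 : t1 ≤ t := ((le_max_right _ _).trans (le_max_left _ _)).trans ht
  have ht2 : 1 ≤ t := (le_max_right _ _).trans ht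
  have hst : 0 < √t := Real.sqrt_pos.2 (by linarith)
  have key : ∀ E : Finset ℕ, (∀ N ∈ E, t < (N : ℝ) ∧ (N : ℝ) < t + c * √t) →
      η * √t ≤ ∑ n ∈ E, (((Nat.divisors n).filter
        (fun u : ℕ => a1 * √t ≤ (u : ℝ) ∧ (u : ℝ) ≤ a2 * √t)).card : ℝ) →
      √t / ψ t ≤ (E.card : ℝ) := by
    intro E hE hs
    by_contra hcon
    push Not at hcon
    have h3 := H1 t ht1 E hE hcon.le
    push_cast at h3
    have h4 := hs.trans h3
    nlinarith
  obtain ⟨h3, h4⟩ := H0 t ht0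
  refine ⟨key _ ?_ h3, key _ ?_ h4⟩
  · intro N hN
    rw [Finset.mem_filter] at hN
    exact ⟨hN.2.1, hN.2.2.1⟩
  · intro N hN
    rw [Finset.mem_filter] at hN
    exact ⟨hN.2.1, hN.2.2.1⟩

theorem finalQ_three (hR : FinalR) : FinalQ (fun t => (Real.log t) ^ 3) := finalQ hR touchP_three

end Pool.Agent.MRQ
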