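import Mathlib

/-! TANK MR, count exponent `7/10` (helper14), part 1: the mean value of `2^{-Ω}`. -/

set_option autoImplicit false

namespace Pool.Agent.MRQ

open Finset

/-- `2^{-Ω(n)}`. -/
noncomputable def hw (n : ℕ) : ℝ := (1 / 2 : ℝ) ^ (ArithmeticFunction.cardFactors n)

theorem hw_pos (n : ℕ) : 0 < hw n := by
  unfold hw
  positivity

theorem hw_le_one (n : ℕ) : hw n ≤ 1 := by
  unfold hw
  exact pow_le_one₀ (by norm_num) (by norm_num)

theorem hw_mul {m n : ℕ} (hm : m ≠ 0) (hn : n ≠ 0) : hw (m * n) = hw m * hw n := by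
  unfold hw
  rw [ArithmeticFunction.cardFactors_mul hm hn, pow_add]

theorem card_divisors_le_two_pow' (n : ℕ) (hn : n ≠ 0) :
    n.divisors.card ≤ 2 ^ (ArithmeticFunction.cardFactors n) := by
  induction n using induction_on_primes with
  | zero => exact absurd rfl hn
  | one => simp
  | prime_mul p a hp ih =>
    have ha : a ≠ 0 := by
      rintro rfl
      exact hn (mul_zero _)
    rw [ArithmeticFunction.cardFactors_mul hp.ne_zero ha,
      ArithmeticFunction.cardFactors_apply_prime hp, pow_add, pow_one]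
    have h1 : (p * a).divisors.card ≤ p.divisors.card * a.divisors.card := by
      rw [Nat.divisors_mul]
      exact Finset.card_mul_le
    refine h1.trans ?_
    have h2 : p.divisors.card = 2 := by
      rw [hp.divisors, Finset.card_pair hp.one_lt.ne]
    rw [h2]
    exact Nat.mul_le_mul_left 2 (ih ha)

theorem hw_mul_card_divisors_le {n : ℕ} (hn : n ≠ 0) : hw n * (n.divisors.card : ℝ) ≤ 1 := by
  have h1 : (n.divisors.card : ℝ) ≤ (2 : ℝ) ^ (ArithmeticFunction.cardFactors n) := by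
    exact_mod_cast card_divisors_le_two_pow' n hn
  calc hw n * (n.divisors.card : ℝ)
      ≤ hw n * (2 : ℝ) ^ (ArithmeticFunction.cardFactors n) :=
        mul_le_mul_of_nonneg_left h1 (hw_pos n).le
    _ = 1 := by
        unfold hw
        rw [← mul_pow]
        norm_num

/-- `(∑_{m ≤ x} 2^{-Ω(m)}/m)² ≤ 1 + 2 log x`. -/
theorem sq_sum_hw_div_le (x : ℕ) :
    (∑ m ∈ Icc 1 x, hw m / m) ^ 2 ≤ 1 + 2 * Real.log x := by
  rcases Nat.eq_zero_or_pos x with h0 | hx
  · subst h0
    simp
  have hmap : ∀ p ∈ Icc 1 x ×ˢ Icc 1 x, p.1 * p.2 ∈ Icc 1 (x ^ 2) := by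
    intro p hp
    rw [mem_product, mem_Icc, mem_Icc] at hp
    rw [mem_Icc]
    constructor
    · exact Nat.one_le_iff_ne_zero.2 (Nat.mul_ne_zero (by omega) (by omega))
    · rw [sq]
      exact Nat.mul_le_mul hp.1.2 hp.2.2
  rw [sq, Finset.sum_mul_sum, ← Finset.sum_product']
  have h1 : ∀ p ∈ Icc 1 x ×ˢ Icc 1 x, hw p.1 / p.1 * (hw p.2 / p.2) =
      hw (p.1 * p.2) / ((p.1 * p.2 : ℕ) : ℝ) := by
    intro p hp
    rw [mem_product, mem_Icc, mem_Icc] at hp
    rw [hw_mul (by omega) (by omega)]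
    push_cast
    rw [div_mul_div_comm]
  rw [Finset.sum_congr rfl h1]
  rw [← Finset.sum_fiberwise_of_maps_to hmap]
  have h2 : ∀ n ∈ Icc 1 (x ^ 2), (∑ p ∈ (Icc 1 x ×ˢ Icc 1 x).filter (fun p => p.1 * p.2 = n),
      hw (p.1 * p.2) / ((p.1 * p.2 : ℕ) : ℝ)) ≤ (n : ℝ)⁻¹ := by
    intro n hn
    rw [mem_Icc] at hn
    have hn0 : n ≠ 0 := by omega
    have hnR : (0 : ℝ) < n := by exact_mod_cast hn.1
    have e1 : ∀ p ∈ (Icc 1 x ×ˢ Icc 1 x).filter (fun p => p.1 * p.2 = n),
        hw (p.1 * p.2) / ((p.1 * p.2 : ℕ) : ℝ) = hw n / n := by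
      intro p hp
      rw [mem_filter] at hp
      rw [hp.2]
    rw [Finset.sum_congr rfl e1, Finset.sum_const, nsmul_eq_mul]
    have e2 : ((Icc 1 x ×ˢ Icc 1 x).filter (fun p => p.1 * p.2 = n)).card ≤ n.divisors.card := by
      apply Finset.card_le_card_of_injOn (fun p => p.1)
      · intro p hp
        rw [mem_coe, mem_filter] at hp
        rw [mem_coe, Nat.mem_divisors]
        exact ⟨⟨p.2, hp.2.symm⟩, hn0⟩
      · intro p hp q hq hpq
        rw [mem_coe, mem_filter, mem_product, mem_Icc, mem_Icc] at hp hq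
        simp only at hpq
        have : p.1 * p.2 = p.1 * q.2 := by rw [hp.2, hpq, hq.2]
        exact Prod.ext hpq (Nat.eq_of_mul_eq_mul_left (by omega) this)
    have e3 : (((Icc 1 x ×ˢ Icc 1 x).filter (fun p => p.1 * p.2 = n)).card : ℝ) ≤
        (n.divisors.card : ℝ) := by exact_mod_cast e2
    have e4 := hw_mul_card_divisors_le hn0
    calc (((Icc 1 x ×ˢ Icc 1 x).filter (fun p => p.1 * p.2 = n)).card : ℝ) * (hw n / n)
        ≤ (n.divisors.card : ℝ) * (hw n / n) :=
          mul_le_mul_of_nonneg_right e3 (div_nonneg (hw_pos n).le hnR.le)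
      _ = (hw n * (n.divisors.card : ℝ)) * (n : ℝ)⁻¹ := by
          rw [div_eq_mul_inv]; ring
      _ ≤ 1 * (n : ℝ)⁻¹ := mul_le_mul_of_nonneg_right e4 (by positivity)
      _ = (n : ℝ)⁻¹ := one_mul _
  refine (Finset.sum_le_sum h2).trans ?_
  have h4 := harmonic_le_one_add_log (x ^ 2)
  rw [harmonic_eq_sum_Icc] at h4
  push_cast at h4
  rw [Real.log_pow] at h4
  push_cast at h4
  exact h4

/-- `∑_{n ≤ x} 2^{-Ω(n)} ≪ x (1 + 2 log x)^{1/2} / log x`. -/
theorem sum_hw_mul_log_le {x : ℕ} (hx : 1 ≤ x) :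
    (∑ n ∈ Icc 1 x, hw n) * Real.log x ≤
      (Real.log 4 + 5) * x * √(1 + 2 * Real.log x) := by
  have hxR : (1 : ℝ) ≤ x := by exact_mod_cast hx
  have hlog4 : 0 ≤ Real.log 4 := Real.log_nonneg (by norm_num)
  set G : ℝ := ∑ m ∈ Icc 1 x, hw m / m with hG
  have hG0 : 0 ≤ G := Finset.sum_nonneg fun m hm => div_nonneg (hw_pos m).le (Nat.cast_nonneg m)
  have hGle : G ≤ √(1 + 2 * Real.log x) := by
    apply Real.le_sqrt_of_sq_le
    exact sq_sum_hw_div_le x
  -- first part
  have hA : ∑ n ∈ Icc 1 x, hw n * Real.log ((x : ℝ) / n) ≤ x * G := by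
    rw [hG, Finset.mul_sum]
    apply Finset.sum_le_sum
    intro n hn
    rw [mem_Icc] at hn
    have hn0 : (0 : ℝ) < n := by exact_mod_cast hn.1
    have h1 : Real.log ((x : ℝ) / n) ≤ (x : ℝ) / n := by
      have := Real.log_le_sub_one_of_pos (show (0 : ℝ) < (x : ℝ) / n by positivity)
      linarith
    calc hw n * Real.log ((x : ℝ) / n) ≤ hw n * ((x : ℝ) / n) :=
          mul_le_mul_of_nonneg_left h1 (hw_pos n).le
      _ = x * (hw n / n) := by ring
  -- second part
  have hB : ∑ n ∈ Icc 1 x, hw n * Real.log n ≤ (Real.log 4 + 4) * x * G := by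
    have e1 : ∀ n ∈ Icc 1 x, hw n * Real.log n =
        ∑ d ∈ (Icc 1 x).filter (fun d => d ∣ n), hw n * ArithmeticFunction.vonMangoldt d := by
      intro n hn
      rw [mem_Icc] at hn
      rw [← ArithmeticFunction.vonMangoldt_sum, Finset.mul_sum]
      apply Finset.sum_congr _ fun _ _ => rfl
      ext d
      rw [Nat.mem_divisors, mem_filter, mem_Icc]
      constructor
      · rintro ⟨h, h0⟩
        exact ⟨⟨Nat.pos_of_dvd_of_pos h (by omega), (Nat.le_of_dvd (by omega) h).trans hn.2⟩, h⟩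
      · rintro ⟨_, h⟩
        exact ⟨h, by omega⟩
    rw [Finset.sum_congr rfl e1]
    -- reindex `n = d m`
    have e2 : ∑ n ∈ Icc 1 x, ∑ d ∈ (Icc 1 x).filter (fun d => d ∣ n),
        hw n * ArithmeticFunction.vonMangoldt d ≤
        ∑ m ∈ Icc 1 x, ∑ d ∈ Icc 1 (x / m), hw m * ArithmeticFunction.vonMangoldt d := by
      rw [Finset.sum_sigma', Finset.sum_sigma']
      have hinj : Set.InjOn (fun p : (_ : ℕ) × ℕ => (⟨p.1 / p.2, p.2⟩ : (_ : ℕ) × ℕ))
          (((Icc 1 x).sigma fun n => (Icc 1 x).filter (fun d => d ∣ n) : Finset _) : Set _) := by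
        rintro ⟨n, d⟩ hp ⟨n', d'⟩ hq hpq
        rw [mem_coe, mem_sigma, mem_filter] at hp hq
        simp only [Sigma.mk.injEq, heq_eq_eq] at hpq
        obtain ⟨h1, h2⟩ := hpq
        subst h2
        have e3 := Nat.div_mul_cancel hp.2.2
        have e4 := Nat.div_mul_cancel hq.2.2
        simp only at e3 e4
        rw [h1] at e3
        rw [← e3, e4]
      have hstep : ∀ p ∈ (Icc 1 x).sigma fun n => (Icc 1 x).filter (fun d => d ∣ n),
          hw p.1 * ArithmeticFunction.vonMangoldt p.2 ≤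
          (fun q : (_ : ℕ) × ℕ => hw q.1 * ArithmeticFunction.vonMangoldt q.2)
            ((fun p : (_ : ℕ) × ℕ => (⟨p.1 / p.2, p.2⟩ : (_ : ℕ) × ℕ)) p) := by
        rintro ⟨n, d⟩ hp
        rw [mem_sigma, mem_filter, mem_Icc, mem_Icc] at hp
        simp only at hp ⊢
        have e3 := Nat.div_mul_cancel hp.2.2
        have hnd : n / d ≠ 0 := by
          intro h
          rw [h] at e3
          omega
        apply mul_le_mul_of_nonneg_right _ ArithmeticFunction.vonMangoldt_nonneg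
        rw [← e3, hw_mul hnd (by omega), e3]
        have := hw_le_one d
        have := (hw_pos (n / d)).le
        nlinarith
      refine (Finset.sum_le_sum hstep).trans ?_
      rw [← Finset.sum_image (f := fun q : (_ : ℕ) × ℕ =>
        hw q.1 * ArithmeticFunction.vonMangoldt q.2) hinj]
      apply Finset.sum_le_sum_of_subset_of_nonneg
      · intro q hq
        rw [mem_image] at hq
        obtain ⟨⟨n, d⟩, hp, rfl⟩ := hq
        rw [mem_sigma, mem_filter, mem_Icc, mem_Icc] at hp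
        simp only at hp
        rw [mem_sigma, mem_Icc, mem_Icc]
        simp only
        have e3 := Nat.div_mul_cancel hp.2.2
        have hnd : n / d ≠ 0 := by
          intro h
          rw [h] at e3
          omega
        refine ⟨⟨Nat.pos_of_ne_zero hnd, (Nat.div_le_self n d).trans hp.1.2⟩, hp.2.1.1, ?_⟩
        rw [Nat.le_div_iff_mul_le (Nat.pos_of_ne_zero hnd)]
        calc d * (n / d) = n := by rw [mul_comm]; exact e3
          _ ≤ x := hp.1.2
      · intro q _ _
        exact mul_nonneg (hw_pos _).le ArithmeticFunction.vonMangoldt_nonneg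
    refine e2.trans ?_
    rw [hG, Finset.mul_sum]
    apply Finset.sum_le_sum
    intro m hm
    rw [mem_Icc] at hm
    have hm0 : (0 : ℝ) < m := by exact_mod_cast hm.1
    rw [← Finset.mul_sum]
    have e5 : ∑ d ∈ Icc 1 (x / m), ArithmeticFunction.vonMangoldt d =
        Chebyshev.psi ((x / m : ℕ) : ℝ) := by
      unfold Chebyshev.psi
      rw [Nat.floor_natCast]
      rfl
    rw [e5]
    have e6 := Chebyshev.psi_le_const_mul_self (x := ((x / m : ℕ) : ℝ)) (Nat.cast_nonneg _)
    have e7 : ((x / m : ℕ) : ℝ) ≤ (x : ℝ) / m := Nat.cast_div_le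
    calc hw m * Chebyshev.psi ((x / m : ℕ) : ℝ)
        ≤ hw m * ((Real.log 4 + 4) * ((x : ℝ) / m)) := by
          apply mul_le_mul_of_nonneg_left _ (hw_pos m).le
          exact e6.trans (mul_le_mul_of_nonneg_left e7 (by linarith))
      _ = (Real.log 4 + 4) * x * (hw m / m) := by ring
  have hsum : (∑ n ∈ Icc 1 x, hw n) * Real.log x =
      ∑ n ∈ Icc 1 x, hw n * Real.log ((x : ℝ) / n) + ∑ n ∈ Icc 1 x, hw n * Real.log n := by
    rw [Finset.sum_mul, ← Finset.sum_add_distrib]
    apply Finset.sum_congr rfl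
    intro n hn
    rw [mem_Icc] at hn
    have hn0 : (0 : ℝ) < n := by exact_mod_cast hn.1
    rw [Real.log_div (by linarith) hn0.ne']
    ring
  rw [hsum]
  calc _ ≤ x * G + (Real.log 4 + 4) * x * G := add_le_add hA hB
    _ = (Real.log 4 + 5) * x * G := by ring
    _ ≤ (Real.log 4 + 5) * x * √(1 + 2 * Real.log x) :=
        mul_le_mul_of_nonneg_left hGle (by positivity)

end Pool.Agent.MRQ
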