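import Pool.Agent.Lib.MRQ.Half

/-! TANK MR, count exponent `7/10` (helper14), part 2: pairs of divisors of the same scale. -/

set_option autoImplicit false

namespace Pool.Agent.MRQ

open Finset

/-! ### Near-diagonal sums -/

theorem eq_sum {α β : Type*} (A : Finset α) (B : Finset β) (l1 : α → ℕ)
    (l2 : β → ℕ) (g1 : α → ℝ) (g2 : β → ℝ) {R : Finset ℕ} (hR : ∀ a ∈ A, l1 a ∈ R) :
    ∑ p ∈ (A ×ˢ B).filter (fun p => l1 p.1 = l2 p.2), g1 p.1 * g2 p.2 =
      ∑ i ∈ R, (∑ a ∈ A.filter (fun a => l1 a = i), g1 a) *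
        (∑ b ∈ B.filter (fun b => l2 b = i), g2 b) := by
  classical
  have hmap : ∀ p ∈ (A ×ˢ B).filter (fun p => l1 p.1 = l2 p.2), l1 p.1 ∈ R := by
    intro p hp
    rw [mem_filter, mem_product] at hp
    exact hR _ hp.1.1
  rw [← Finset.sum_fiberwise_of_maps_to hmap]
  apply Finset.sum_congr rfl
  intro i _
  rw [Finset.sum_mul_sum, ← Finset.sum_product']
  apply Finset.sum_congr _ fun _ _ => rfl
  ext p
  simp only [mem_filter, mem_product]
  constructor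
  · rintro ⟨⟨⟨h1, h2⟩, h3⟩, h4⟩
    exact ⟨⟨h1, h4⟩, h2, by rw [← h3, h4]⟩
  · rintro ⟨⟨h1, h4⟩, h2, h3⟩
    exact ⟨⟨⟨h1, h2⟩, by rw [h3, h4]⟩, h4⟩

theorem diag_le {α β : Type*} (A : Finset α) (B : Finset β) (l1 : α → ℕ) (l2 : β → ℕ)
    (g1 : α → ℝ) (g2 : β → ℝ) :
    ∑ p ∈ (A ×ˢ B).filter (fun p => l1 p.1 = l2 p.2), g1 p.1 * g2 p.2 ≤
      1 / 2 * (∑ p ∈ (A ×ˢ A).filter (fun p => l1 p.1 = l1 p.2), g1 p.1 * g1 p.2 +
        ∑ p ∈ (B ×ˢ B).filter (fun p => l2 p.1 = l2 p.2), g2 p.1 * g2 p.2) := by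
  classical
  set R : Finset ℕ := A.image l1 ∪ B.image l2 with hR
  have h1 : ∀ a ∈ A, l1 a ∈ R := fun a ha => mem_union_left _ (mem_image_of_mem _ ha)
  have h2 : ∀ b ∈ B, l2 b ∈ R := fun b hb => mem_union_right _ (mem_image_of_mem _ hb)
  rw [eq_sum A B l1 l2 g1 g2 h1, eq_sum A A l1 l1 g1 g1 h1, eq_sum B B l2 l2 g2 g2 h2,
    ← Finset.sum_add_distrib, Finset.mul_sum]
  apply Finset.sum_le_sum
  intro i _
  nlinarith [sq_nonneg ((∑ a ∈ A.filter (fun a => l1 a = i), g1 a) -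
    (∑ b ∈ B.filter (fun b => l2 b = i), g2 b))]

theorem near_le {α β : Type*} (A : Finset α) (B : Finset β) (l1 : α → ℕ) (l2 : β → ℕ)
    (g1 : α → ℝ) (g2 : β → ℝ) (h1 : ∀ a ∈ A, 0 ≤ g1 a) (h2 : ∀ b ∈ B, 0 ≤ g2 b) :
    ∑ p ∈ (A ×ˢ B).filter (fun p => l1 p.1 ≤ l2 p.2 + 1 ∧ l2 p.2 ≤ l1 p.1 + 1),
        g1 p.1 * g2 p.2 ≤
      3 / 2 * (∑ p ∈ (A ×ˢ A).filter (fun p => l1 p.1 = l1 p.2), g1 p.1 * g1 p.2 +
        ∑ p ∈ (B ×ˢ B).filter (fun p => l2 p.1 = l2 p.2), g2 p.1 * g2 p.2) := by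
  classical
  have hpos : ∀ p ∈ A ×ˢ B, 0 ≤ g1 p.1 * g2 p.2 := by
    intro p hp
    rw [mem_product] at hp
    exact mul_nonneg (h1 _ hp.1) (h2 _ hp.2)
  have hsplit : ∑ p ∈ (A ×ˢ B).filter (fun p => l1 p.1 ≤ l2 p.2 + 1 ∧ l2 p.2 ≤ l1 p.1 + 1),
        g1 p.1 * g2 p.2 ≤
      ∑ p ∈ (A ×ˢ B).filter (fun p => l1 p.1 = l2 p.2), g1 p.1 * g2 p.2 +
      ∑ p ∈ (A ×ˢ B).filter (fun p => l1 p.1 + 1 = l2 p.2), g1 p.1 * g2 p.2 +
      ∑ p ∈ (A ×ˢ B).filter (fun p => l1 p.1 = l2 p.2 + 1), g1 p.1 * g2 p.2 := by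
    rw [Finset.sum_filter, Finset.sum_filter, Finset.sum_filter, Finset.sum_filter,
      ← Finset.sum_add_distrib, ← Finset.sum_add_distrib]
    apply Finset.sum_le_sum
    intro p hp
    have h0 := hpos p hp
    by_cases hc : l1 p.1 ≤ l2 p.2 + 1 ∧ l2 p.2 ≤ l1 p.1 + 1
    · rw [if_pos hc]
      by_cases e1 : l1 p.1 = l2 p.2
      · rw [if_pos e1]
        have e2 : ¬ (l1 p.1 + 1 = l2 p.2) := by omega
        have e3 : ¬ (l1 p.1 = l2 p.2 + 1) := by omega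
        rw [if_neg e2, if_neg e3]
        linarith
      · by_cases e2 : l1 p.1 + 1 = l2 p.2
        · have e3 : ¬ (l1 p.1 = l2 p.2 + 1) := by omega
          rw [if_neg e1, if_pos e2, if_neg e3]
          linarith
        · have e3 : l1 p.1 = l2 p.2 + 1 := by omega
          rw [if_neg e1, if_neg e2, if_pos e3]
          linarith
    · rw [if_neg hc]
      have q1 : 0 ≤ if l1 p.1 = l2 p.2 then g1 p.1 * g2 p.2 else 0 := by
        split_ifs
        · exact h0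
        · exact le_rfl
      have q2 : 0 ≤ if l1 p.1 + 1 = l2 p.2 then g1 p.1 * g2 p.2 else 0 := by
        split_ifs
        · exact h0
        · exact le_rfl
      have q3 : 0 ≤ if l1 p.1 = l2 p.2 + 1 then g1 p.1 * g2 p.2 else 0 := by
        split_ifs
        · exact h0
        · exact le_rfl
      linarith
  have d1 := diag_le A B l1 l2 g1 g2
  have d2 := diag_le A B (fun a => l1 a + 1) l2 g1 g2
  have d3 := diag_le A B l1 (fun b => l2 b + 1) g1 g2
  simp only [add_left_inj] at d2 d3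
  linarith

/-! ### Scales -/

/-- the harmonic mass of one scale. -/
theorem scale_sum_sq_le {K : ℕ} (hK : 2 ≤ K) (U j : ℕ) :
    (∑ n ∈ (Icc 1 U).filter (fun n => Nat.log K n = j), hw n / n) ^ 2 ≤
      240 * (K : ℝ) ^ 2 / (j + 1) := by
  have hK0 : (0 : ℝ) < K := by exact_mod_cast (by omega : 0 < K)
  have hK1 : (1 : ℝ) ≤ K := by exact_mod_cast (by omega : 1 ≤ K)
  have hK2 : (2 : ℝ) ≤ K := by exact_mod_cast hK
  set x : ℕ := K ^ (j + 1) with hx
  have hx1 : 1 ≤ x := Nat.one_le_pow _ _ (by omega)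
  set y : ℝ := Real.log x with hy
  have hy' : y = ((j : ℝ) + 1) * Real.log K := by
    rw [hy, hx]
    push_cast
    rw [Real.log_pow]
    push_cast
    ring
  have hlogK : 0.6931 ≤ Real.log K := by
    have h2 := Real.log_two_gt_d9
    have h3 := Real.log_le_log (by norm_num : (0 : ℝ) < 2) hK2
    linarith
  have hj0 : (0 : ℝ) ≤ j := Nat.cast_nonneg j
  have hyl : 0.6931 * ((j : ℝ) + 1) ≤ y := by
    rw [hy']
    nlinarith
  have hypos : 0 < y := by nlinarith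
  have h4 : Real.log 4 ≤ 1.4 := by
    have h2 := Real.log_two_lt_d9
    have : Real.log 4 = 2 * Real.log 2 := by
      rw [show (4 : ℝ) = 2 ^ 2 by norm_num, Real.log_pow]
      push_cast
      ring
    rw [this]
    linarith
  have hlog4 : 0 ≤ Real.log 4 := Real.log_nonneg (by norm_num)
  have hS0 : 0 ≤ ∑ n ∈ (Icc 1 U).filter (fun n => Nat.log K n = j), hw n / n :=
    Finset.sum_nonneg fun n _ => div_nonneg (hw_pos n).le (Nat.cast_nonneg n)
  have hS : ∑ n ∈ (Icc 1 U).filter (fun n => Nat.log K n = j), hw n / n ≤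
      (∑ n ∈ Icc 1 x, hw n) / (K : ℝ) ^ j := by
    rw [Finset.sum_div]
    have hsub : (Icc 1 U).filter (fun n => Nat.log K n = j) ⊆ Icc 1 x := by
      intro n hn
      rw [mem_filter, mem_Icc] at hn
      rw [mem_Icc]
      refine ⟨hn.1.1, ?_⟩
      have := Nat.lt_pow_succ_log_self (b := K) (by omega) n
      rw [hn.2] at this
      exact this.le
    refine le_trans ?_ (Finset.sum_le_sum_of_subset_of_nonneg hsub fun n _ _ =>
      div_nonneg (hw_pos n).le (by positivity))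
    apply Finset.sum_le_sum
    intro n hn
    rw [mem_filter, mem_Icc] at hn
    have h1 : K ^ j ≤ n := by
      have := Nat.pow_log_le_self K (x := n) (by omega)
      rwa [hn.2] at this
    have h2 : (K : ℝ) ^ j ≤ n := by exact_mod_cast h1
    exact div_le_div_of_nonneg_left (hw_pos n).le (by positivity) h2
  have hmain := sum_hw_mul_log_le hx1
  rw [← hy] at hmain
  have hb1 : (∑ n ∈ Icc 1 x, hw n) / (K : ℝ) ^ j * y ≤ 6.4 * K * √(1 + 2 * y) := by
    have hxK : (x : ℝ) = K * (K : ℝ) ^ j := by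
      rw [hx]
      push_cast
      ring
    have hKj : (0 : ℝ) < (K : ℝ) ^ j := by positivity
    rw [div_mul_eq_mul_div, div_le_iff₀ hKj]
    refine hmain.trans ?_
    rw [hxK]
    have hs : 0 ≤ √(1 + 2 * y) := Real.sqrt_nonneg _
    have h0 : 0 ≤ K * (K : ℝ) ^ j * √(1 + 2 * y) := by positivity
    nlinarith
  have hb2 : (∑ n ∈ (Icc 1 U).filter (fun n => Nat.log K n = j), hw n / n) * y ≤
      6.4 * K * √(1 + 2 * y) := (mul_le_mul_of_nonneg_right hS hypos.le).trans hb1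
  have hb3 : ((∑ n ∈ (Icc 1 U).filter (fun n => Nat.log K n = j), hw n / n) * y) ^ 2 ≤
      (6.4 * K * √(1 + 2 * y)) ^ 2 := pow_le_pow_left₀ (by positivity) hb2 2
  rw [mul_pow, mul_pow, mul_pow, Real.sq_sqrt (by positivity)] at hb3
  have hj1 : (0 : ℝ) < (j : ℝ) + 1 := by positivity
  rw [le_div_iff₀ hj1]
  -- `S² y² ≤ 40.96 K² (1 + 2y) ≤ 40.96 K² · 3.5 y`
  set S : ℝ := (∑ n ∈ (Icc 1 U).filter (fun n => Nat.log K n = j), hw n / n) ^ 2 with hSdef
  have hSn : 0 ≤ S := sq_nonneg _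
  have hy1 : 1 ≤ 1.4428 * y := by nlinarith
  have hb4 : S * y * y ≤ (6.4 ^ 2 * (K : ℝ) ^ 2 * 3.4428) * y := by
    calc S * y * y = S * y ^ 2 := by ring
      _ ≤ 6.4 ^ 2 * (K : ℝ) ^ 2 * (1 + 2 * y) := hb3
      _ ≤ 6.4 ^ 2 * (K : ℝ) ^ 2 * (3.4428 * y) := by
          apply mul_le_mul_of_nonneg_left _ (by positivity)
          linarith
      _ = (6.4 ^ 2 * (K : ℝ) ^ 2 * 3.4428) * y := by ring
  have hb5 : S * y ≤ 6.4 ^ 2 * (K : ℝ) ^ 2 * 3.4428 := le_of_mul_le_mul_right hb4 hypos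
  have hb6 : S * (0.6931 * ((j : ℝ) + 1)) ≤ S * y := mul_le_mul_of_nonneg_left hyl hSn
  nlinarith [sq_nonneg (K : ℝ)]

/-- the diagonal sum over all scales. -/
theorem diag_sum_le {K : ℕ} (hK : 2 ≤ K) (U : ℕ) :
    ∑ p ∈ (Icc 1 U ×ˢ Icc 1 U).filter (fun p => Nat.log K p.1 = Nat.log K p.2),
      (hw p.1 / p.1) * (hw p.2 / p.2) ≤
      240 * (K : ℝ) ^ 2 * (1 + Real.log (Nat.log K U + 1 : ℕ)) := by
  have hR : ∀ a ∈ Icc 1 U, Nat.log K a ∈ range (Nat.log K U + 1) := by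
    intro a ha
    rw [mem_Icc] at ha
    rw [mem_range]
    have := Nat.log_mono_right (b := K) ha.2
    omega
  rw [eq_sum (Icc 1 U) (Icc 1 U) (fun n => Nat.log K n) (fun n => Nat.log K n)
    (fun n => hw n / n) (fun n => hw n / n) hR]
  have h1 : ∀ i ∈ range (Nat.log K U + 1),
      (∑ a ∈ (Icc 1 U).filter (fun a => Nat.log K a = i), hw a / a) *
        (∑ b ∈ (Icc 1 U).filter (fun b => Nat.log K b = i), hw b / b) ≤
      240 * (K : ℝ) ^ 2 * ((i : ℝ) + 1)⁻¹ := by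
    intro i _
    have := scale_sum_sq_le hK U i
    rw [sq, div_eq_mul_inv] at this
    exact this
  refine (Finset.sum_le_sum h1).trans ?_
  rw [← Finset.mul_sum]
  apply mul_le_mul_of_nonneg_left _ (by positivity)
  have h4 := harmonic_le_one_add_log (Nat.log K U + 1)
  unfold harmonic at h4
  push_cast at h4 ⊢
  exact h4

/-- pairs of divisors of `u` of the same scale. -/
def TT (K u : ℕ) : ℕ :=
  ((u.divisors ×ˢ u.divisors).filter (fun p => Nat.log K p.1 = Nat.log K p.2)).card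

theorem log_near {K : ℕ} (hK : 2 ≤ K) {a b : ℕ} (ha : a ≠ 0) (h : b ≤ K * a) :
    Nat.log K b ≤ Nat.log K a + 1 := by
  have h1 : Nat.log K (K * a) = Nat.log K a + 1 := by
    rw [mul_comm]
    exact Nat.log_mul_base (by omega) ha
  rw [← h1]
  exact Nat.log_mono_right h

/-- pointwise bound by the coprime parts. -/
theorem TT_le {K : ℕ} (hK : 2 ≤ K) {u : ℕ} (hu : u ≠ 0) :
    TT K u ≤ ∑ q ∈ (u.divisors ×ˢ u.divisors).filter (fun q =>
      (Nat.log K q.1 ≤ Nat.log K q.2 + 1 ∧ Nat.log K q.2 ≤ Nat.log K q.1 + 1) ∧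
        q.1 * q.2 ∣ u), (u / (q.1 * q.2)).divisors.card := by
  unfold TT
  set P := (u.divisors ×ˢ u.divisors).filter (fun p => Nat.log K p.1 = Nat.log K p.2) with hP
  set Q := (u.divisors ×ˢ u.divisors).filter (fun q =>
      (Nat.log K q.1 ≤ Nat.log K q.2 + 1 ∧ Nat.log K q.2 ≤ Nat.log K q.1 + 1) ∧
        q.1 * q.2 ∣ u) with hQ
  let φ : ℕ × ℕ → ℕ × ℕ := fun p => (p.1 / Nat.gcd p.1 p.2, p.2 / Nat.gcd p.1 p.2)
  have hfact : ∀ p ∈ P, 0 < Nat.gcd p.1 p.2 ∧ Nat.gcd p.1 p.2 * (φ p).1 = p.1 ∧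
      Nat.gcd p.1 p.2 * (φ p).2 = p.2 ∧ (φ p).1 ≠ 0 ∧ (φ p).2 ≠ 0 ∧
      (φ p).1 * (φ p).2 * Nat.gcd p.1 p.2 ∣ u := by
    intro p hp
    rw [hP, mem_filter, mem_product, Nat.mem_divisors, Nat.mem_divisors] at hp
    obtain ⟨⟨⟨h1, _⟩, h2, _⟩, h3⟩ := hp
    have p1 : 0 < p.1 := Nat.pos_of_dvd_of_pos h1 (Nat.pos_of_ne_zero hu)
    have p2 : 0 < p.2 := Nat.pos_of_dvd_of_pos h2 (Nat.pos_of_ne_zero hu)
    have hg : 0 < Nat.gcd p.1 p.2 := Nat.gcd_pos_of_pos_left _ p1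
    have e1 : Nat.gcd p.1 p.2 * (φ p).1 = p.1 := Nat.mul_div_cancel' (Nat.gcd_dvd_left _ _)
    have e2 : Nat.gcd p.1 p.2 * (φ p).2 = p.2 := Nat.mul_div_cancel' (Nat.gcd_dvd_right _ _)
    have n1 : (φ p).1 ≠ 0 := by
      intro h; rw [h] at e1; omega
    have n2 : (φ p).2 ≠ 0 := by
      intro h; rw [h] at e2; omega
    refine ⟨hg, e1, e2, n1, n2, ?_⟩
    have e3 : (φ p).1 * (φ p).2 * Nat.gcd p.1 p.2 = Nat.lcm p.1 p.2 := by
      have h5 := Nat.gcd_mul_lcm p.1 p.2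
      apply Nat.eq_of_mul_eq_mul_left hg
      rw [h5]
      calc Nat.gcd p.1 p.2 * ((φ p).1 * (φ p).2 * Nat.gcd p.1 p.2)
          = (Nat.gcd p.1 p.2 * (φ p).1) * (Nat.gcd p.1 p.2 * (φ p).2) := by ring
        _ = p.1 * p.2 := by rw [e1, e2]
    rw [e3]
    exact Nat.lcm_dvd h1 h2
  have hmaps : ∀ p ∈ P, φ p ∈ Q := by
    intro p hp
    obtain ⟨hg, e1, e2, n1, n2, hd⟩ := hfact p hp
    have hp' := hp
    rw [hP, mem_filter, mem_product, Nat.mem_divisors, Nat.mem_divisors] at hp'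
    obtain ⟨⟨⟨h1, _⟩, h2, _⟩, h3⟩ := hp'
    have p1 : p.1 ≠ 0 := (Nat.pos_of_dvd_of_pos h1 (Nat.pos_of_ne_zero hu)).ne'
    have p2 : p.2 ≠ 0 := (Nat.pos_of_dvd_of_pos h2 (Nat.pos_of_ne_zero hu)).ne'
    rw [hQ, mem_filter, mem_product, Nat.mem_divisors, Nat.mem_divisors]
    have hd1 : (φ p).1 * (φ p).2 ∣ u := (Dvd.intro _ rfl).trans hd
    refine ⟨⟨⟨(Dvd.intro _ rfl).trans hd1, hu⟩, (Dvd.intro_left _ rfl).trans hd1, hu⟩, ?_, hd1⟩
    -- the scales
    have hlt1 : p.1 < K ^ (Nat.log K p.1 + 1) := Nat.lt_pow_succ_log_self (by omega) _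
    have hlt2 : p.2 < K ^ (Nat.log K p.2 + 1) := Nat.lt_pow_succ_log_self (by omega) _
    have hle1 : K ^ Nat.log K p.1 ≤ p.1 := Nat.pow_log_le_self K p1
    have hle2 : K ^ Nat.log K p.2 ≤ p.2 := Nat.pow_log_le_self K p2
    have k1 : p.1 ≤ K * p.2 := by
      calc p.1 ≤ K ^ (Nat.log K p.1 + 1) := hlt1.le
        _ = K * K ^ Nat.log K p.2 := by rw [h3, pow_succ]; ring
        _ ≤ K * p.2 := Nat.mul_le_mul_left K hle2
    have k2 : p.2 ≤ K * p.1 := by
      calc p.2 ≤ K ^ (Nat.log K p.2 + 1) := hlt2.le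
        _ = K * K ^ Nat.log K p.1 := by rw [← h3, pow_succ]; ring
        _ ≤ K * p.1 := Nat.mul_le_mul_left K hle1
    constructor
    · apply log_near hK n2
      apply Nat.le_of_mul_le_mul_left _ hg
      rw [e1]
      calc p.1 ≤ K * p.2 := k1
        _ = Nat.gcd p.1 p.2 * (K * (φ p).2) := by
            rw [mul_left_comm, e2]
    · apply log_near hK n1
      apply Nat.le_of_mul_le_mul_left _ hg
      rw [e2]
      calc p.2 ≤ K * p.1 := k2
        _ = Nat.gcd p.1 p.2 * (K * (φ p).1) := by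
            rw [mul_left_comm, e1]
  rw [Finset.card_eq_sum_card_fiberwise (f := φ) (t := Q) hmaps]
  apply Finset.sum_le_sum
  intro q hq
  rw [hQ, mem_filter] at hq
  have hqd : q.1 * q.2 ∣ u := hq.2.2
  have hq0 : 0 < q.1 * q.2 := Nat.pos_of_dvd_of_pos hqd (Nat.pos_of_ne_zero hu)
  apply Finset.card_le_card_of_injOn (fun p => Nat.gcd p.1 p.2)
  · intro p hp
    rw [mem_coe, mem_filter] at hp
    obtain ⟨hg, e1, e2, n1, n2, hd⟩ := hfact p hp.1
    rw [hp.2] at hd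
    rw [mem_coe, Nat.mem_divisors]
    refine ⟨(Nat.dvd_div_iff_mul_dvd hqd).2 hd, ?_⟩
    intro h
    have := Nat.div_mul_cancel hqd
    rw [h, zero_mul] at this
    exact hu this.symm
  · intro p hp p' hp' hpp
    rw [mem_coe, mem_filter] at hp hp'
    obtain ⟨hg, e1, e2, _⟩ := hfact p hp.1
    obtain ⟨hg', e1', e2', _⟩ := hfact p' hp'.1
    simp only at hpp
    rw [hp.2] at e1 e2
    rw [hp'.2] at e1' e2'
    apply Prod.ext
    · rw [← e1, ← e1', hpp]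
    · rw [← e2, ← e2', hpp]

/-- `∑_{u ≤ U} 2^{-Ω(u)} T(u) ≪ U log log U`. -/
theorem sum_hw_TT_le {K : ℕ} (hK : 2 ≤ K) (U : ℕ) :
    ∑ u ∈ Icc 1 U, hw u * (TT K u : ℝ) ≤
      720 * (K : ℝ) ^ 2 * (1 + Real.log (Nat.log K U + 1 : ℕ)) * U := by
  classical
  set N : ℕ × ℕ → Prop := fun q =>
    Nat.log K q.1 ≤ Nat.log K q.2 + 1 ∧ Nat.log K q.2 ≤ Nat.log K q.1 + 1 with hN
  have h1 : ∀ u ∈ Icc 1 U, hw u * (TT K u : ℝ) ≤
      ∑ q ∈ (Icc 1 U ×ˢ Icc 1 U).filter (fun q => N q), if q.1 * q.2 ∣ u then hw q.1 * hw q.2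
        else 0 := by
    intro u hu
    rw [mem_Icc] at hu
    have hu0 : u ≠ 0 := by omega
    have h2 : (TT K u : ℝ) ≤ ∑ q ∈ (u.divisors ×ˢ u.divisors).filter (fun q => N q ∧
        q.1 * q.2 ∣ u), ((u / (q.1 * q.2)).divisors.card : ℝ) := by
      exact_mod_cast TT_le hK hu0
    calc hw u * (TT K u : ℝ) ≤ hw u * ∑ q ∈ (u.divisors ×ˢ u.divisors).filter (fun q => N q ∧
        q.1 * q.2 ∣ u), ((u / (q.1 * q.2)).divisors.card : ℝ) :=
          mul_le_mul_of_nonneg_left h2 (hw_pos u).le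
      _ ≤ ∑ q ∈ (u.divisors ×ˢ u.divisors).filter (fun q => N q ∧
        q.1 * q.2 ∣ u), hw q.1 * hw q.2 := by
          rw [Finset.mul_sum]
          apply Finset.sum_le_sum
          intro q hq
          rw [mem_filter] at hq
          have hqd := hq.2.2
          have hq0 : 0 < q.1 * q.2 := Nat.pos_of_dvd_of_pos hqd (by omega)
          have hw0 : u / (q.1 * q.2) ≠ 0 := by
            intro h
            have := Nat.div_mul_cancel hqd
            rw [h, zero_mul] at this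
            omega
          have e1 : hw u = hw q.1 * hw q.2 * hw (u / (q.1 * q.2)) := by
            have hq1 : q.1 ≠ 0 := by
              intro h; rw [h, zero_mul] at hq0; omega
            have hq2 : q.2 ≠ 0 := by
              intro h; rw [h, mul_zero] at hq0; omega
            rw [← hw_mul hq1 hq2, ← hw_mul hq0.ne' hw0, Nat.mul_div_cancel' hqd]
          rw [e1]
          have e2 := hw_mul_card_divisors_le hw0
          have e3 : 0 ≤ hw q.1 * hw q.2 := mul_nonneg (hw_pos _).le (hw_pos _).le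
          calc hw q.1 * hw q.2 * hw (u / (q.1 * q.2)) * ((u / (q.1 * q.2)).divisors.card : ℝ)
              = hw q.1 * hw q.2 * (hw (u / (q.1 * q.2)) *
                ((u / (q.1 * q.2)).divisors.card : ℝ)) := by ring
            _ ≤ hw q.1 * hw q.2 * 1 := mul_le_mul_of_nonneg_left e2 e3
            _ = _ := mul_one _
      _ = ∑ q ∈ (u.divisors ×ˢ u.divisors).filter (fun q => N q ∧
        q.1 * q.2 ∣ u), if q.1 * q.2 ∣ u then hw q.1 * hw q.2 else 0 := by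
          apply Finset.sum_congr rfl
          intro q hq
          rw [mem_filter] at hq
          rw [if_pos hq.2.2]
      _ ≤ _ := by
          apply Finset.sum_le_sum_of_subset_of_nonneg
          · intro q hq
            rw [mem_filter, mem_product, Nat.mem_divisors, Nat.mem_divisors] at hq
            rw [mem_filter, mem_product, mem_Icc, mem_Icc]
            obtain ⟨⟨⟨a1, _⟩, a2, _⟩, a3, _⟩ := hq
            exact ⟨⟨⟨Nat.pos_of_dvd_of_pos a1 (by omega), (Nat.le_of_dvd (by omega) a1).trans hu.2⟩,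
              Nat.pos_of_dvd_of_pos a2 (by omega), (Nat.le_of_dvd (by omega) a2).trans hu.2⟩, a3⟩
          · intro q _ _
            split_ifs
            · exact mul_nonneg (hw_pos _).le (hw_pos _).le
            · exact le_rfl
  refine (Finset.sum_le_sum h1).trans ?_
  rw [Finset.sum_comm]
  have h3 : ∀ q ∈ (Icc 1 U ×ˢ Icc 1 U).filter (fun q => N q),
      (∑ u ∈ Icc 1 U, if q.1 * q.2 ∣ u then hw q.1 * hw q.2 else 0) ≤
        U * ((hw q.1 / q.1) * (hw q.2 / q.2)) := by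
    intro q hq
    rw [mem_filter, mem_product, mem_Icc, mem_Icc] at hq
    have q1 : (0 : ℝ) < q.1 := by exact_mod_cast hq.1.1.1
    have q2 : (0 : ℝ) < q.2 := by exact_mod_cast hq.1.2.1
    rw [← Finset.sum_filter, Finset.sum_const, nsmul_eq_mul]
    have e1 : ((Icc 1 U).filter (fun u => q.1 * q.2 ∣ u)).card = U / (q.1 * q.2) := by
      rw [← Nat.Ioc_filter_dvd_card_eq_div U (q.1 * q.2)]
      congr 1
    rw [e1]
    have e2 : ((U / (q.1 * q.2) : ℕ) : ℝ) ≤ (U : ℝ) / ((q.1 * q.2 : ℕ) : ℝ) := Nat.cast_div_le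
    calc ((U / (q.1 * q.2) : ℕ) : ℝ) * (hw q.1 * hw q.2)
        ≤ (U : ℝ) / ((q.1 * q.2 : ℕ) : ℝ) * (hw q.1 * hw q.2) :=
          mul_le_mul_of_nonneg_right e2 (mul_nonneg (hw_pos _).le (hw_pos _).le)
      _ = U * ((hw q.1 / q.1) * (hw q.2 / q.2)) := by
          push_cast
          field_simp
  refine (Finset.sum_le_sum h3).trans ?_
  rw [← Finset.mul_sum]
  have h4 := near_le (Icc 1 U) (Icc 1 U) (fun n => Nat.log K n) (fun n => Nat.log K n)
    (fun n => hw n / n) (fun n => hw n / n)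
    (fun a _ => div_nonneg (hw_pos a).le (Nat.cast_nonneg a))
    (fun a _ => div_nonneg (hw_pos a).le (Nat.cast_nonneg a))
  have h5 := diag_sum_le hK U
  have h6 : ∑ q ∈ (Icc 1 U ×ˢ Icc 1 U).filter (fun q => N q),
      (hw q.1 / q.1) * (hw q.2 / q.2) ≤
      720 * (K : ℝ) ^ 2 * (1 + Real.log (Nat.log K U + 1 : ℕ)) := by
    refine h4.trans ?_
    linarith
  calc (U : ℝ) * ∑ q ∈ (Icc 1 U ×ˢ Icc 1 U).filter (fun q => N q),
      (hw q.1 / q.1) * (hw q.2 / q.2)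
      ≤ U * (720 * (K : ℝ) ^ 2 * (1 + Real.log (Nat.log K U + 1 : ℕ))) :=
        mul_le_mul_of_nonneg_left h6 (Nat.cast_nonneg U)
    _ = _ := by ring

end Pool.Agent.MRQ
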