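import Mathlib

/-! TANK MR, quantitative lift: the integers `n` touched by a sparse exceptional set `E` in a short
interval. helper14. -/

set_option autoImplicit false

namespace Pool.Agent.MRQ

open Finset

theorem card_le_of_diam (S : Finset ℕ) {L : ℝ} (hL : 0 ≤ L)
    (h : ∀ m ∈ S, ∀ n ∈ S, (n : ℝ) ≤ m + L) : (S.card : ℝ) ≤ L + 1 := by
  rcases S.eq_empty_or_nonempty with hS | hS
  · rw [hS]
    simp
    linarith
  · have h1 : S ⊆ Icc (S.min' hS) (S.max' hS) := fun x hx =>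
      mem_Icc.2 ⟨S.min'_le x hx, S.le_max' x hx⟩
    have h2 := card_le_card h1
    rw [Nat.card_Icc] at h2
    have h3 := h _ (S.min'_mem hS) _ (S.max'_mem hS)
    have h4 : S.min' hS ≤ S.max' hS := S.min'_le _ (S.max'_mem hS)
    have h5 : (S.card : ℝ) ≤ ((S.max' hS + 1 - S.min' hS : ℕ) : ℝ) := by exact_mod_cast h2
    rw [Nat.cast_sub (by omega)] at h5
    push_cast at h5
    linarith

theorem card_multiples {E : Finset ℕ} {t ℓ : ℝ} (hE : ∀ N ∈ E, t < N ∧ (N : ℝ) < t + ℓ)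
    (hℓ : 0 ≤ ℓ) {u : ℕ} (hu : 0 < u) : ((E.filter (u ∣ ·)).card : ℝ) ≤ ℓ / u + 1 := by
  have hu0 : (0 : ℝ) < u := by exact_mod_cast hu
  have h1 : (E.filter (u ∣ ·)).card = ((E.filter (u ∣ ·)).image (· / u)).card := by
    rw [card_image_of_injOn]
    intro x hx y hy hxy
    have hx := (mem_filter.1 (mem_coe.1 hx)).2
    have hy := (mem_filter.1 (mem_coe.1 hy)).2
    simp only at hxy
    rw [← Nat.div_mul_cancel hx, ← Nat.div_mul_cancel hy, hxy]
  rw [h1]
  refine card_le_of_diam _ (by positivity) ?_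
  intro m hm n hn
  rw [mem_image] at hm hn
  obtain ⟨x, hx, rfl⟩ := hm
  obtain ⟨y, hy, rfl⟩ := hn
  rw [mem_filter] at hx hy
  have h2 := hE x hx.1
  have h3 := hE y hy.1
  have h4 : ((x / u : ℕ) : ℝ) = (x : ℝ) / u := by
    rw [Nat.cast_div hx.2 hu0.ne']
  have h5 : ((y / u : ℕ) : ℝ) = (y : ℝ) / u := by
    rw [Nat.cast_div hy.2 hu0.ne']
  rw [h4, h5, ← add_div]
  apply div_le_div_of_nonneg_right _ hu0.le
  linarith

theorem sum_tau_le (U : ℕ) :
    ∑ u ∈ Icc 1 U, (u.divisors.card : ℝ) ≤ U * (1 + Real.log U) := by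
  have h1 : ∀ u ∈ Icc 1 U, (u.divisors.card : ℝ) =
      ∑ d ∈ Icc 1 U, (if d ∣ u then (1 : ℝ) else 0) := by
    intro u hu
    rw [mem_Icc] at hu
    rw [← sum_filter, sum_const, nsmul_eq_mul, mul_one]
    congr 2
    ext d
    rw [Nat.mem_divisors, mem_filter, mem_Icc]
    constructor
    · rintro ⟨h2, h3⟩
      exact ⟨⟨Nat.pos_of_dvd_of_pos h2 (by omega), (Nat.le_of_dvd (by omega) h2).trans hu.2⟩, h2⟩
    · rintro ⟨_, h2⟩
      exact ⟨h2, by omega⟩
  rw [sum_congr rfl h1, sum_comm]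
  have h2 : ∀ d ∈ Icc 1 U, ∑ u ∈ Icc 1 U, (if d ∣ u then (1 : ℝ) else 0) ≤ U * (1 / (d : ℝ)) := by
    intro d hd
    rw [← sum_filter, sum_const, nsmul_eq_mul, mul_one]
    have h3 : Icc 1 U = Ioc 0 U := rfl
    rw [h3, Nat.Ioc_filter_dvd_card_eq_div]
    rw [mul_one_div]
    exact Nat.cast_div_le
  refine (sum_le_sum h2).trans ?_
  rw [← mul_sum]
  refine mul_le_mul_of_nonneg_left ?_ (Nat.cast_nonneg U)
  have h4 := harmonic_le_one_add_log U
  refine le_trans (le_of_eq ?_) h4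
  rw [harmonic_eq_sum_Icc]
  push_cast
  simp only [one_div]

theorem card_tau_gt (U : ℕ) {Z : ℝ} (hZ : 0 < Z) :
    (((Icc 1 U).filter (fun u => Z < (u.divisors.card : ℝ))).card : ℝ) ≤
      U * (1 + Real.log U) / Z := by
  rw [le_div_iff₀ hZ]
  refine le_trans ?_ (sum_tau_le U)
  rw [← nsmul_eq_mul, ← sum_const]
  refine le_trans (sum_le_sum fun u hu => ((mem_filter.1 hu).2).le) ?_
  exact sum_le_sum_of_subset_of_nonneg (filter_subset _ _) fun u _ _ => Nat.cast_nonneg _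

theorem card_divisors_mul_le (u v : ℕ) :
    (u * v).divisors.card ≤ u.divisors.card * v.divisors.card := by
  rw [Nat.divisors_mul]
  exact card_mul_le

/-- the number of pairs `(N, u)`, `N ∈ E`, `u ∣ N`, with `u` and `N / u` in `[A, B]`. -/
theorem pairs_le {E : Finset ℕ} {t ℓ A B Z : ℝ} (hE : ∀ N ∈ E, t < N ∧ (N : ℝ) < t + ℓ)
    (ht : 0 < t) (hℓ : 0 ≤ ℓ) (hA : 0 < A) (hB : 1 ≤ B) (hZ : 0 < Z)
    (D : Finset (ℕ × ℕ)) (hD : ∀ x ∈ D, x.1 ∈ E ∧ x.2 ∣ x.1 ∧ A ≤ x.2 ∧ (x.2 : ℝ) ≤ B ∧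
      A ≤ ((x.1 / x.2 : ℕ) : ℝ) ∧ ((x.1 / x.2 : ℕ) : ℝ) ≤ B) :
    (D.card : ℝ) ≤ E.card * Z ^ 2 + 2 * ((ℓ / A + 1) * (B * (1 + Real.log B) / Z)) := by
  classical
  set D1 := D.filter fun x => ((x.2.divisors.card : ℝ) ≤ Z ∧
    (((x.1 / x.2 : ℕ).divisors.card : ℕ) : ℝ) ≤ Z) with hD1
  set D2 := D.filter fun x => Z < (x.2.divisors.card : ℝ) with hD2
  set D3 := D.filter fun x => Z < (((x.1 / x.2 : ℕ).divisors.card : ℕ) : ℝ) with hD3
  have hpos : ∀ x ∈ D, 0 < x.1 := by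
    intro x hx
    have h1 := (hE _ (hD x hx).1).1
    have h2 : (0 : ℝ) < x.1 := by linarith
    exact_mod_cast h2
  have hsub : D ⊆ (D1 ∪ D2) ∪ D3 := by
    intro x hx
    rw [mem_union, mem_union]
    by_cases h1 : Z < (x.2.divisors.card : ℝ)
    · exact Or.inl (Or.inr (mem_filter.2 ⟨hx, h1⟩))
    by_cases h2 : Z < (((x.1 / x.2 : ℕ).divisors.card : ℕ) : ℝ)
    · exact Or.inr (mem_filter.2 ⟨hx, h2⟩)
    · exact Or.inl (Or.inl (mem_filter.2 ⟨hx, not_lt.1 h1, not_lt.1 h2⟩))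
  -- D1
  have hc1 : (D1.card : ℝ) ≤ E.card * Z ^ 2 := by
    have h1 : D1.card = ∑ N ∈ E, (D1.filter fun x => x.1 = N).card :=
      card_eq_sum_card_fiberwise fun x hx => (hD x (mem_filter.1 hx).1).1
    rw [h1]
    push_cast
    rw [← nsmul_eq_mul, ← sum_const]
    refine sum_le_sum fun N _ => ?_
    rcases (D1.filter fun x => x.1 = N).eq_empty_or_nonempty with h2 | ⟨x, hx⟩
    · rw [h2]
      simp
      positivity
    · have hx1 := (mem_filter.1 hx).1
      have hxN := (mem_filter.1 hx).2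
      have hx2 := (mem_filter.1 hx1).2
      have hxD := (mem_filter.1 hx1).1
      have h3 : (D1.filter fun x => x.1 = N).card ≤ N.divisors.card := by
        refine card_le_card_of_injOn (fun x => x.2) ?_ ?_
        · intro y hy
          have hy := mem_coe.1 hy
          have hy1 := (mem_filter.1 hy).1
          have hyN := (mem_filter.1 hy).2
          have hyD := (mem_filter.1 hy1).1
          have h4 := (hD y hyD).2.1
          have h5 := hpos y hyD
          simp only [mem_coe, Nat.mem_divisors]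
          rw [hyN] at h4 h5
          exact ⟨h4, by omega⟩
        · intro y hy z hz hyz
          have hyN := (mem_filter.1 (mem_coe.1 hy)).2
          have hzN := (mem_filter.1 (mem_coe.1 hz)).2
          exact Prod.ext (hyN.trans hzN.symm) hyz
      have h4 : N.divisors.card ≤ x.2.divisors.card * ((x.1 / x.2 : ℕ)).divisors.card := by
        have h5 : N = x.2 * (x.1 / x.2) := by
          rw [Nat.mul_div_cancel' (hD x hxD).2.1, hxN]
        conv_lhs => rw [h5]
        exact card_divisors_mul_le _ _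
      have h6 : (((D1.filter fun x => x.1 = N).card : ℕ) : ℝ) ≤
          (x.2.divisors.card : ℝ) * (((x.1 / x.2 : ℕ)).divisors.card : ℝ) := by
        exact_mod_cast h3.trans h4
      refine h6.trans ?_
      rw [sq]
      exact mul_le_mul hx2.1 hx2.2 (Nat.cast_nonneg _) hZ.le
  -- generic bound
  have hBl : ∀ u : ℕ, (u : ℝ) ≤ B → u ≤ ⌊B⌋₊ := fun u hu => Nat.le_floor hu
  have hfl : (⌊B⌋₊ : ℝ) * (1 + Real.log ⌊B⌋₊) / Z ≤ B * (1 + Real.log B) / Z := by
    apply div_le_div_of_nonneg_right _ hZ.le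
    have h1 : (⌊B⌋₊ : ℝ) ≤ B := Nat.floor_le (by linarith)
    have h2 : (1 : ℝ) ≤ (⌊B⌋₊ : ℝ) := by
      exact_mod_cast (Nat.one_le_floor_iff B).2 hB
    have h3 : Real.log ⌊B⌋₊ ≤ Real.log B := Real.log_le_log (by linarith) h1
    have h4 : 0 ≤ Real.log ⌊B⌋₊ := Real.log_nonneg h2
    exact mul_le_mul h1 (by linarith) (by linarith) (by linarith)
  set G : Finset ℕ := (Icc 1 ⌊B⌋₊).filter (fun u => Z < (u.divisors.card : ℝ) ∧ A ≤ u) with hG
  have hGc : (G.card : ℝ) ≤ B * (1 + Real.log B) / Z := by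
    refine le_trans ?_ ((card_tau_gt ⌊B⌋₊ hZ).trans hfl)
    have : G ⊆ (Icc 1 ⌊B⌋₊).filter (fun u => Z < (u.divisors.card : ℝ)) := by
      intro u hu
      rw [hG, mem_filter] at hu
      exact mem_filter.2 ⟨hu.1, hu.2.1⟩
    exact_mod_cast card_le_card this
  have hgen : ∀ (D' : Finset (ℕ × ℕ)), (∀ x ∈ D', x.1 ∈ E ∧ x.2 ∣ x.1 ∧ x.2 ∈ G) →
      (D'.card : ℝ) ≤ (ℓ / A + 1) * (B * (1 + Real.log B) / Z) := by
    intro D' hD'
    have h1 : D'.card = ∑ u ∈ G, (D'.filter fun x => x.2 = u).card :=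
      card_eq_sum_card_fiberwise fun x hx => (hD' x hx).2.2
    have h2 : ∀ u ∈ G, (((D'.filter fun x => x.2 = u).card : ℕ) : ℝ) ≤ ℓ / A + 1 := by
      intro u hu
      rw [hG, mem_filter, mem_Icc] at hu
      have hu0 : 0 < u := by omega
      have hu0' : (0 : ℝ) < u := by exact_mod_cast hu0
      have h3 : (D'.filter fun x => x.2 = u).card ≤ (E.filter (u ∣ ·)).card := by
        refine card_le_card_of_injOn (fun x => x.1) ?_ ?_
        · intro y hy
          have hy := mem_coe.1 hy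
          have hy1 := (mem_filter.1 hy).1
          have hyu := (mem_filter.1 hy).2
          have h4 := hD' y hy1
          rw [hyu] at h4
          simp only [mem_coe, mem_filter]
          exact ⟨h4.1, h4.2.1⟩
        · intro y hy z hz hyz
          have hyu := (mem_filter.1 (mem_coe.1 hy)).2
          have hzu := (mem_filter.1 (mem_coe.1 hz)).2
          exact Prod.ext hyz (hyu.trans hzu.symm)
      have h4 : (((D'.filter fun x => x.2 = u).card : ℕ) : ℝ) ≤ ((E.filter (u ∣ ·)).card : ℝ) := by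
        exact_mod_cast h3
      refine h4.trans ((card_multiples hE hℓ hu0).trans ?_)
      have h5 : ℓ / u ≤ ℓ / A := div_le_div_of_nonneg_left hℓ hA hu.2.2
      linarith
    rw [h1]
    push_cast
    refine (sum_le_sum h2).trans ?_
    rw [sum_const, nsmul_eq_mul, mul_comm]
    exact mul_le_mul_of_nonneg_left hGc (by positivity)
  have hc2 : (D2.card : ℝ) ≤ (ℓ / A + 1) * (B * (1 + Real.log B) / Z) := by
    apply hgen
    intro x hx
    have hx1 := (mem_filter.1 hx).1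
    have hx2 := (mem_filter.1 hx).2
    obtain ⟨a1, a2, a3, a4, a5, a6⟩ := hD x hx1
    refine ⟨a1, a2, ?_⟩
    rw [hG, mem_filter, mem_Icc]
    have hu0 : 0 < x.2 := Nat.pos_of_dvd_of_pos a2 (hpos x hx1)
    exact ⟨⟨hu0, hBl _ a4⟩, hx2, a3⟩
  have hc3 : (D3.card : ℝ) ≤ (ℓ / A + 1) * (B * (1 + Real.log B) / Z) := by
    have h1 : D3.card = (D3.image fun x => (x.1, x.1 / x.2)).card := by
      rw [card_image_of_injOn]
      intro x hx y hy hxy
      have hxD := (mem_filter.1 (mem_coe.1 hx)).1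
      have hyD := (mem_filter.1 (mem_coe.1 hy)).1
      simp only [Prod.mk.injEq] at hxy
      obtain ⟨h1, h2⟩ := hxy
      refine Prod.ext h1 ?_
      have h3 := Nat.mul_div_cancel' (hD x hxD).2.1
      have h4 := Nat.mul_div_cancel' (hD y hyD).2.1
      have h5 := hpos x hxD
      rw [← h2, ← h1] at h4
      have h6 : 0 < x.1 / x.2 := by
        rcases Nat.eq_zero_or_pos (x.1 / x.2) with h0 | h0
        · rw [h0, mul_zero] at h3
          omega
        · exact h0
      exact (Nat.eq_of_mul_eq_mul_right h6 (h4.trans h3.symm)).symm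
    rw [h1]
    apply hgen
    intro x hx
    rw [mem_image] at hx
    obtain ⟨y, hy, rfl⟩ := hx
    have hy1 := (mem_filter.1 hy).1
    have hy2 := (mem_filter.1 hy).2
    obtain ⟨a1, a2, a3, a4, a5, a6⟩ := hD y hy1
    refine ⟨a1, Nat.div_dvd_of_dvd a2, ?_⟩
    rw [hG, mem_filter, mem_Icc]
    have hu0 : 0 < y.1 / y.2 := by
      have h7 : (0 : ℝ) < ((y.1 / y.2 : ℕ) : ℝ) := by linarith
      exact_mod_cast h7
    exact ⟨⟨hu0, hBl _ a6⟩, hy2, a5⟩
  have hcs : D.card ≤ D1.card + D2.card + D3.card := by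
    have k1 := (card_le_card hsub).trans (card_union_le _ _)
    have k2 := card_union_le D1 D2
    omega
  have hcs' : (D.card : ℝ) ≤ D1.card + D2.card + D3.card := by exact_mod_cast hcs
  linarith

end Pool.Agent.MRQ
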